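import Pool.Agent.N661.BR.Stm4
import Pool.Agent.N661.BR.Base
import Pool.Agent.N901.BRLEVY

/-!
# Project BR, part STAT: local limits are translation invariant (helper40)
-/

set_option autoImplicit false
open MeasureTheory Filter Topology Complex ProbabilityTheory
open scoped ContDiff

namespace Pool.Agent.N40.BRSTAT

open Pool.Agent.N661.BR
open Pool.Agent.W745.RW (lap dx dy TF Dp Dm W Sol Sys)
open Pool.Agent.N901.BRLEVY (cut_vol)

/-- the finite dimensional distributions determine a law on `MW` -/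
theorem law_ext (μ ν : Measure MW) [IsProbabilityMeasure μ] [IsProbabilityMeasure ν]
    (H : ∀ (k : ℕ) (w : Fin k → ℂ) (t : Fin k → ℝ),
      ∫ f, Complex.exp (I * (lin w t f : ℝ)) ∂ν = ∫ f, Complex.exp (I * (lin w t f : ℝ)) ∂μ) :
    ν = μ := by
  have hval : Measurable (Subtype.val : MW → (ℂ → ℝ)) := measurable_subtype_coe
  have hp1 : IsProbabilityMeasure (ν.map (Subtype.val : MW → (ℂ → ℝ))) :=
    Measure.isProbabilityMeasure_map hval.aemeasurable
  have hp2 : IsProbabilityMeasure (μ.map (Subtype.val : MW → (ℂ → ℝ))) :=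
    Measure.isProbabilityMeasure_map hval.aemeasurable
  have key : ∀ J : Finset ℂ, (ν.map (Subtype.val : MW → (ℂ → ℝ))).map J.restrict =
      (μ.map (Subtype.val : MW → (ℂ → ℝ))).map J.restrict := by
    intro J
    have hr : Measurable (J.restrict : (ℂ → ℝ) → (J → ℝ)) := Finset.measurable_restrict J
    have hq1 : IsProbabilityMeasure ((ν.map (Subtype.val : MW → (ℂ → ℝ))).map
        (J.restrict : (ℂ → ℝ) → (J → ℝ))) := Measure.isProbabilityMeasure_map hr.aemeasurable
    have hq2 : IsProbabilityMeasure ((μ.map (Subtype.val : MW → (ℂ → ℝ))).map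
        (J.restrict : (ℂ → ℝ) → (J → ℝ))) := Measure.isProbabilityMeasure_map hr.aemeasurable
    apply Measure.ext_of_charFunDual
    funext L
    have hchar : ∀ (ρ : Measure MW), charFunDual ((ρ.map (Subtype.val : MW → (ℂ → ℝ))).map
        (J.restrict : (ℂ → ℝ) → (J → ℝ))) L =
        ∫ f : MW, Complex.exp (I * (lin (fun i : Fin J.card => ((J.equivFin.symm i : J) : ℂ))
          (fun i => L (Pi.single (J.equivFin.symm i) 1)) f : ℝ)) ∂ρ := by
      intro ρ
      rw [charFunDual_apply, Measure.map_map hr hval, integral_map (hr.comp hval).aemeasurable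
        (by fun_prop)]
      refine integral_congr_ae (Eventually.of_forall fun f => ?_)
      simp only [Function.comp_apply]
      rw [mul_comm]
      congr 3
      unfold lin
      rw [Equiv.sum_comp J.equivFin.symm (fun j : J => L (Pi.single j 1) * f.1 (j : ℂ))]
      have h1 : (J.restrict f.1 : J → ℝ) = ∑ j : J, (f.1 (j : ℂ)) • (Pi.single j (1 : ℝ) : J → ℝ) := by
        funext j
        rw [Finset.sum_apply, Finset.sum_eq_single j]
        · simp [Finset.restrict]
        · intro b _ hb
          simp [hb.symm]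
        · intro h
          exact absurd (Finset.mem_univ _) h
      rw [h1, map_sum]
      refine Finset.sum_congr rfl fun j _ => ?_
      rw [map_smul, smul_eq_mul, mul_comm]
    rw [hchar ν, hchar μ, H]
  have h1 : ν.map (Subtype.val : MW → (ℂ → ℝ)) = μ.map (Subtype.val : MW → (ℂ → ℝ)) := by
    have hq : ∀ J : Finset ℂ, IsFiniteMeasure ((μ.map (Subtype.val : MW → (ℂ → ℝ))).map
        (J.restrict : (ℂ → ℝ) → (J → ℝ))) := fun J => by
      have := Measure.isProbabilityMeasure_map (μ := μ.map (Subtype.val : MW → (ℂ → ℝ)))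
        (Finset.measurable_restrict J (X := fun _ => ℝ)).aemeasurable
      infer_instance
    exact IsProjectiveLimit.unique
      (P := fun J : Finset ℂ => (μ.map (Subtype.val : MW → (ℂ → ℝ))).map J.restrict)
      (fun J => key J) (fun J => rfl)
  ext A hA
  obtain ⟨B, hB, rfl⟩ := hA
  rw [← Measure.map_apply hval hB, ← Measure.map_apply hval hB, h1]

/-- the characteristic functions of the finite dimensional distributions decide stationarity -/
theorem stat_of_char (μ : Measure MW) (hμ : IsProbabilityMeasure μ)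
    (H : ∀ (x : ℂ) (k : ℕ) (w : Fin k → ℂ) (t : Fin k → ℝ),
      ∫ f, Complex.exp (I * (lin (fun j => w j + x) t f : ℝ)) ∂μ =
        ∫ f, Complex.exp (I * (lin w t f : ℝ)) ∂μ) : IsStationary μ := by
  intro x
  have hp : IsProbabilityMeasure (μ.map (shift x)) :=
    Measure.isProbabilityMeasure_map (meas_shift x).aemeasurable
  apply law_ext
  intro k w t
  have hm : Measurable (fun f : MW => lin w t f) :=
    Finset.measurable_sum _ fun j _ => (meas_eval (w j)).const_mul _
  have hm2 : Measurable (fun f : MW => Complex.exp (I * (lin w t f : ℝ))) := by fun_prop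
  rw [integral_map (meas_shift x).aemeasurable hm2.aestronglyMeasurable, ← H x k w t]
  rfl

lemma tf_shift {φ : ℂ → ℝ} (h1 : Continuous φ) (h2 : HasCompactSupport φ) (x : ℂ) {h : ℕ → ℝ}
    (hh : Tendsto h atTop (𝓝 0)) :
    Tendsto (fun n => ∫ z, |φ (z - (h n : ℂ) * x) - φ z|) atTop (𝓝 0) := by
  obtain ⟨R, hR⟩ := h2.isBounded.subset_closedBall (0 : ℂ)
  obtain ⟨C, hC⟩ := h1.bounded_above_of_compact_support h2
  have hC0 : 0 ≤ C := (norm_nonneg _).trans (hC 0)
  have hx : Tendsto (fun n => (h n : ℂ) * x) atTop (𝓝 0) := by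
    have h3 : Tendsto (fun n => ((h n : ℝ) : ℂ)) atTop (𝓝 ((0 : ℝ) : ℂ)) :=
      (Complex.continuous_ofReal.tendsto _).comp hh
    have h4 := h3.mul_const x
    simpa using h4
  have hz : (0 : ℝ) = ∫ _ : ℂ, (0 : ℝ) := by simp
  rw [hz]
  refine tendsto_integral_filter_of_dominated_convergence
    (fun z => (Metric.closedBall (0 : ℂ) (R + 1)).indicator (fun _ => 2 * C) z) ?_ ?_ ?_ ?_
  · refine Eventually.of_forall fun n => ?_
    have : Continuous (fun z : ℂ => |φ (z - (h n : ℂ) * x) - φ z|) := by fun_prop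
    exact this.aestronglyMeasurable
  · have h3 : ∀ᶠ n in atTop, ‖(h n : ℂ) * x‖ < 1 := by
      have := (tendsto_norm_zero.comp hx).eventually (gt_mem_nhds one_pos)
      simpa using this
    filter_upwards [h3] with n hn
    refine Eventually.of_forall fun z => ?_
    rw [Real.norm_eq_abs, abs_abs]
    by_cases hz : z ∈ Metric.closedBall (0 : ℂ) (R + 1)
    · rw [Set.indicator_of_mem hz]
      have e1 := hC (z - (h n : ℂ) * x)
      have e2 := hC z
      rw [Real.norm_eq_abs] at e1 e2
      calc |φ (z - (h n : ℂ) * x) - φ z| ≤ |φ (z - (h n : ℂ) * x)| + |φ z| := abs_sub _ _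
        _ ≤ 2 * C := by linarith
    · rw [Set.indicator_of_notMem hz]
      have hz' : R + 1 < ‖z‖ := by
        rw [mem_closedBall_zero_iff, not_le] at hz
        exact hz
      have e1 : φ z = 0 := by
        apply image_eq_zero_of_notMem_tsupport
        intro hmem
        have := hR hmem
        rw [mem_closedBall_zero_iff] at this
        linarith
      have e2 : φ (z - (h n : ℂ) * x) = 0 := by
        apply image_eq_zero_of_notMem_tsupport
        intro hmem
        have := hR hmem
        rw [mem_closedBall_zero_iff] at this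
        have h5 := norm_sub_norm_le z ((h n : ℂ) * x)
        linarith
      rw [e1, e2]
      simp
  · refine (integrable_indicator_iff Metric.isClosed_closedBall.measurableSet).2 ?_
    exact integrableOn_const (isCompact_closedBall _ _).measure_lt_top.ne
  · refine Eventually.of_forall fun z => ?_
    have h3 : Tendsto (fun n => φ (z - (h n : ℂ) * x)) atTop (𝓝 (φ (z - 0))) :=
      (h1.tendsto _).comp (tendsto_const_nhds.sub hx)
    rw [sub_zero] at h3
    have h4 := (h3.sub_const (φ z)).abs
    simpa using h4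

/-- integrability of a cut off phase -/
lemma int_phase {ψ : ℂ → ℝ} (h1 : Continuous ψ) (h2 : HasCompactSupport ψ) {F : ℂ → ℂ} {U : Set ℂ}
    (hU : IsOpen U) (hF : ContinuousOn F U) (hF1 : ∀ z, ‖F z‖ = 1) (h0 : ∀ z, z ∉ U → ψ z = 0) :
    Integrable (fun z => (ψ z : ℂ) * F z) := by
  have hψ : Integrable ψ := h1.integrable_of_hasCompactSupport h2
  have hm : AEStronglyMeasurable (fun z => (ψ z : ℂ) * F z) volume := by
    have h3 : (fun z => (ψ z : ℂ) * F z) = U.indicator (fun z => (ψ z : ℂ) * F z) := by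
      funext z
      by_cases hz : z ∈ U
      · rw [Set.indicator_of_mem hz]
      · rw [Set.indicator_of_notMem hz, h0 z hz]
        simp
    rw [h3, aestronglyMeasurable_indicator_iff hU.measurableSet]
    have h4 : ContinuousOn (fun z => (ψ z : ℂ) * F z) U :=
      (Complex.continuous_ofReal.comp h1).continuousOn.mul hF
    exact h4.aestronglyMeasurable hU.measurableSet
  refine hψ.norm.mono' hm (Eventually.of_forall fun z => ?_)
  rw [norm_mul, hF1, mul_one, Complex.norm_real]

theorem STAT : S_STAT := by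
  intro Ω hΩ hbdd hne h u hS μ hμ hA
  have hV : volume Ω ≠ ⊤ := hbdd.measure_lt_top.ne
  have h0 : volume Ω ≠ 0 := (hΩ.measure_pos volume hne).ne'
  have hVpos : 0 < volume.real Ω := ENNReal.toReal_pos h0 hV
  apply stat_of_char μ hμ
  intro x k w t
  obtain ⟨L1, hL1⟩ : ∃ L1, L1 = ∫ f : MW, Complex.exp (I * (lin (fun j => w j + x) t f : ℝ)) ∂μ :=
    ⟨_, rfl⟩
  obtain ⟨L0, hL0⟩ : ∃ L0, L0 = ∫ f : MW, Complex.exp (I * (lin w t f : ℝ)) ∂μ := ⟨_, rfl⟩
  rw [← hL1, ← hL0]
  -- the hypothesis for the values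
  have hlin : ∀ (y : Fin k → ℂ) (f : ℂ → ℝ), (∑ j, (t j : ℂ) * ((f (y j) : ℝ) : ℂ)).re =
      ∑ j, t j * f (y j) := by
    intro y f
    rw [Complex.re_sum]
    refine Finset.sum_congr rfl fun j _ => ?_
    rw [← Complex.ofReal_mul, Complex.ofReal_re]
  have hApx : ∀ y : Fin k → ℂ, ∀ φ, TF Ω φ → (∀ z, φ z ∈ Set.Icc (0 : ℝ) 1) → ∀ η : ℝ, 0 < η →
      ∀ᶠ n in atTop, ‖((1 / volume.real Ω : ℝ) : ℂ) * (∫ z, (φ z : ℂ) * Complex.exp
        (I * ((∑ j, t j * u n (z + (h n : ℂ) * y j) : ℝ) : ℂ))) -
        ∫ f : MW, Complex.exp (I * (lin y t f : ℝ)) ∂μ‖ ≤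
        1 - (∫ z, φ z) / volume.real Ω + η := by
    intro y φ hφ hφ1 η hη
    have h1 := hA k (fun j => (t j : ℂ)) (fun _ => 0) y φ hφ hφ1 η hη
    filter_upwards [h1] with n hn
    have e1 : ∀ z, (∑ j, (t j : ℂ) * W (h n) (u n) 0 (z + (h n : ℂ) * y j)).re =
        ∑ j, t j * u n (z + (h n : ℂ) * y j) := fun z =>
      hlin (fun j => z + (h n : ℂ) * y j) (u n)
    have e2 : ∀ f : MW, (∑ j, (t j : ℂ) * W 1 f 0 (y j)).re = lin y t f := fun f => hlin y f
    simp only [e1, e2] at hn
    exact hn
  have main : ∀ ε : ℝ, 0 < ε → ‖L1 - L0‖ ≤ 5 * ε := by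
    intro ε hε
    obtain ⟨φ, hφ, hφ1, hφ2⟩ := cut_vol hΩ hV (ε := ε * volume.real Ω) (by positivity)
    have hr : 1 - (∫ z, φ z) / volume.real Ω ≤ ε := by
      rw [sub_le_iff_le_add, ← sub_le_iff_le_add', le_div_iff₀ hVpos]
      linarith
    obtain ⟨F, hF⟩ : ∃ F : ℕ → ℂ → ℂ, F = fun n z => Complex.exp
        (I * ((∑ j, t j * u n (z + (h n : ℂ) * w j) : ℝ) : ℂ)) := ⟨_, rfl⟩
    have hF1 : ∀ n z, ‖F n z‖ = 1 := by
      intro n z
      rw [hF]
      simp only
      rw [mul_comm]
      exact Complex.norm_exp_ofReal_mul_I _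
    have hh := hS.hlim
    -- the neighbourhood of the support
    obtain ⟨δ, hδ, hδΩ⟩ := hφ.2.1.isCompact.exists_thickening_subset_open hΩ hφ.2.2
    have hsmall : ∀ᶠ n in atTop, ∀ y : ℂ, (y = x ∨ (∃ j, y = w j) ∨ (∃ j, y = w j + x) ∨ y = 0) →
        ‖(h n : ℂ) * y‖ < δ := by
      have h3 : ∀ y : ℂ, ∀ᶠ n in atTop, ‖(h n : ℂ) * y‖ < δ := by
        intro y
        have h4 : Tendsto (fun n => ‖(h n : ℂ) * y‖) atTop (𝓝 0) := by
          have h5 : Tendsto (fun n => ((h n : ℝ) : ℂ)) atTop (𝓝 ((0 : ℝ) : ℂ)) :=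
            (Complex.continuous_ofReal.tendsto _).comp hh
          have h6 := (h5.mul_const y).norm
          simpa using h6
        exact h4.eventually (gt_mem_nhds hδ)
      filter_upwards [h3 x, h3 0, eventually_all.2 fun j => h3 (w j),
        eventually_all.2 fun j => h3 (w j + x)] with n e1 e2 e3 e4
      rintro y (rfl | ⟨j, rfl⟩ | ⟨j, rfl⟩ | rfl)
      · exact e1
      · exact e3 j
      · exact e4 j
      · exact e2
    have hlim := tf_shift hφ.1.continuous hφ.2.1 x hh
    have hlim' : ∀ᶠ n in atTop, ∫ z, |φ (z - (h n : ℂ) * x) - φ z| < ε * volume.real Ω :=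
      hlim.eventually (gt_mem_nhds (by positivity))
    have hE : ∀ᶠ _n : ℕ in atTop, ‖L1 - L0‖ ≤ 5 * ε := by
      filter_upwards [hApx (fun j => w j + x) φ hφ hφ1 ε hε, hApx w φ hφ hφ1 ε hε, hsmall, hlim']
        with n h1 h2 h3 h4
      rw [← hL1] at h1
      rw [← hL0] at h2
      have e1 : (fun z => (φ z : ℂ) * Complex.exp
          (I * ((∑ j, t j * u n (z + (h n : ℂ) * (w j + x)) : ℝ) : ℂ))) =
          fun z => (fun y => (φ (y - (h n : ℂ) * x) : ℂ) * F n y) (z + (h n : ℂ) * x) := by
        funext z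
        rw [hF]
        simp only [add_sub_cancel_right]
        congr 4
        refine Finset.sum_congr rfl fun j _ => ?_
        congr 2
        ring
      have e2 : (fun z => (φ z : ℂ) * Complex.exp
          (I * ((∑ j, t j * u n (z + (h n : ℂ) * w j) : ℝ) : ℂ))) = fun z => (φ z : ℂ) * F n z := by
        rw [hF]
      rw [e1, integral_add_right_eq_self (fun y => (φ (y - (h n : ℂ) * x) : ℂ) * F n y)] at h1
      rw [e2] at h2
      -- the domain of continuity
      obtain ⟨U, hU⟩ : ∃ U : Set ℂ, U = ⋂ j, (fun z => z + (h n : ℂ) * w j) ⁻¹' Ω := ⟨_, rfl⟩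
      have hUo : IsOpen U := by
        rw [hU]
        exact isOpen_iInter_of_finite fun j => hΩ.preimage (by fun_prop)
      have hUm : ∀ z, z ∈ U ↔ ∀ j, z + (h n : ℂ) * w j ∈ Ω := by
        intro z
        rw [hU, Set.mem_iInter]
        rfl
      have hFc : ContinuousOn (F n) U := by
        rw [hF]
        apply Complex.continuous_exp.comp_continuousOn
        apply continuousOn_const.mul
        apply Complex.continuous_ofReal.comp_continuousOn
        apply continuousOn_finsetSum
        intro j _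
        apply continuousOn_const.mul
        exact (hS.sol n).smooth.continuousOn.comp (by fun_prop) fun z hz => (hUm z).1 hz j
      have hmem : ∀ z y : ℂ, z ∈ tsupport φ → ‖y‖ < δ → z + y ∈ Ω := by
        intro z y hz hy
        apply hδΩ
        rw [Metric.mem_thickening_iff]
        exact ⟨z, hz, by rw [dist_eq_norm, add_sub_cancel_left]; exact hy⟩
      have i1 : Integrable (fun z => (φ z : ℂ) * F n z) := by
        apply int_phase hφ.1.continuous hφ.2.1 hUo hFc (hF1 n)
        intro z hz
        by_contra hcon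
        apply hz
        rw [hUm]
        intro j
        exact hmem z _ (subset_tsupport _ hcon) (h3 (w j) (Or.inr (Or.inl ⟨j, rfl⟩)))
      have i2 : Integrable (fun z => (φ (z - (h n : ℂ) * x) : ℂ) * F n z) := by
        apply int_phase (ψ := fun z => φ (z - (h n : ℂ) * x)) (by have := hφ.1.continuous; fun_prop) ?_ hUo hFc (hF1 n)
        · intro z hz
          by_contra hcon
          apply hz
          rw [hUm]
          intro j
          have h5 := hmem (z - (h n : ℂ) * x) ((h n : ℂ) * (w j + x)) (subset_tsupport _ hcon)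
            (h3 (w j + x) (Or.inr (Or.inr (Or.inl ⟨j, rfl⟩))))
          have h6 : z - (h n : ℂ) * x + (h n : ℂ) * (w j + x) = z + (h n : ℂ) * w j := by ring
          rwa [h6] at h5
        · exact hφ.2.1.comp_homeomorph (Homeomorph.subRight ((h n : ℂ) * x))
      have e3 : ‖((1 / volume.real Ω : ℝ) : ℂ) * (∫ z, (φ (z - (h n : ℂ) * x) : ℂ) * F n z) -
          ((1 / volume.real Ω : ℝ) : ℂ) * (∫ z, (φ z : ℂ) * F n z)‖ ≤ ε := by
        rw [← mul_sub, ← integral_sub i2 i1, norm_mul, Complex.norm_real, Real.norm_eq_abs,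
          abs_of_pos (by positivity)]
        have h5 : ‖∫ z, ((φ (z - (h n : ℂ) * x) : ℂ) * F n z - (φ z : ℂ) * F n z)‖ ≤
            ∫ z, |φ (z - (h n : ℂ) * x) - φ z| := by
          refine (norm_integral_le_integral_norm _).trans (le_of_eq ?_)
          refine integral_congr_ae (Eventually.of_forall fun z => ?_)
          simp only
          rw [← sub_mul, norm_mul, hF1, mul_one, ← Complex.ofReal_sub, Complex.norm_real,
            Real.norm_eq_abs]
        calc 1 / volume.real Ω * ‖∫ z, ((φ (z - (h n : ℂ) * x) : ℂ) * F n z - (φ z : ℂ) * F n z)‖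
            ≤ 1 / volume.real Ω * (ε * volume.real Ω) := by
              apply mul_le_mul_of_nonneg_left (h5.trans h4.le) (by positivity)
          _ = ε := by field_simp
      obtain ⟨a, ha⟩ : ∃ a, a = ((1 / volume.real Ω : ℝ) : ℂ) *
        (∫ z, (φ (z - (h n : ℂ) * x) : ℂ) * F n z) := ⟨_, rfl⟩
      obtain ⟨b, hb⟩ : ∃ b, b = ((1 / volume.real Ω : ℝ) : ℂ) * (∫ z, (φ z : ℂ) * F n z) := ⟨_, rfl⟩
      rw [← ha, ← hb] at e3
      rw [← ha] at h1
      rw [← hb] at h2
      calc ‖L1 - L0‖ = ‖-(a - L1) + (a - b) + (b - L0)‖ := by congr 1; ring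
        _ ≤ ‖a - L1‖ + ‖a - b‖ + ‖b - L0‖ := by
            refine (norm_add_le _ _).trans (add_le_add ((norm_add_le _ _).trans ?_) le_rfl)
            rw [norm_neg]
        _ ≤ 5 * ε := by linarith
    obtain ⟨n, hn⟩ := hE.exists
    exact hn
  have h1 : ‖L1 - L0‖ = 0 := by
    apply le_antisymm _ (norm_nonneg _)
    apply le_of_forall_pos_le_add
    intro ε hε
    have := main (ε / 5) (by positivity)
    linarith
  exact sub_eq_zero.1 (norm_eq_zero.1 h1)

end Pool.Agent.N40.BRSTAT
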