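import Pool.Agent.N40.BRSTATH2

/-!
# Project BR/BH, part STATH: Benjamini-Schramm limits are translation invariant (helper40)
-/

set_option autoImplicit false
open MeasureTheory Filter Topology Complex
open scoped ContDiff

namespace Pool.Agent.N40.BRSTATH

open Pool.Agent.W745.RW (dx dy TF)
open Pool.Agent.Y265.RW (int_mul int_mulr)
open Pool.Agent.Y265.HY (SY FW)
open Pool.Agent.N661.BR (MW lin IsStationary S_STATH)
open Pool.Agent.N661.BH
open Pool.Agent.N40.BRSTAT (int_phase stat_of_char)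
open Pool.Agent.N814.BHM
open Pool.Agent.N814.BHASM

variable {Ω : Set ℂ} {lam : ℕ → ℝ} {u : ℕ → ℂ → ℝ}

lemma pos_of_small {h : ℝ} (hh : 0 ≤ h) {v : ℂ} (hv : h * ‖v‖ < 1) : 0 < 1 + h * v.im := by
  have h1 : h * |v.im| ≤ h * ‖v‖ := mul_le_mul_of_nonneg_left (Complex.abs_im_le_norm v) hh
  have h2 : h * (-|v.im|) ≤ h * v.im := mul_le_mul_of_nonneg_left (neg_abs_le _) hh
  linarith

lemma wl_zero (n : ℕ) (z : ℂ) : wl lam u 0 n z = (u n z : ℂ) := by
  rw [wl_eq]
  rfl

lemma A2 (H : Hyp Ω lam u) {ψ : ℂ → ℝ} (hψ : TF Ω ψ) (h0 : ∀ z, 0 ≤ ψ z) (y : ℂ) {s : ℕ → ℝ}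
    (hs : Tendsto s atTop (𝓝 1)) :
    Tendsto (fun n => ∫ z, ψ z * |u n (mv (1 / √(lam n)) ((s n : ℂ) * y) z) -
      u n (mv (1 / √(lam n)) y z)|) atTop (𝓝 0) := by
  have hψ2 : TF HP ψ := ⟨hψ.1, hψ.2.1, hψ.2.2.trans H.sub⟩
  have hs2 : ∀ᶠ n in atTop, |s n| ≤ 2 := by
    have h1 := (hs.abs).eventually (gt_mem_nhds (show |(1:ℝ)| < 2 by norm_num))
    exact h1.mono fun n hn => hn.le
  have hc : ∀ᶠ n in atTop, ContinuousOn (fun z => u n (mv (1 / √(lam n)) ((s n : ℂ) * y) z) -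
      u n (mv (1 / √(lam n)) y z)) HP := by
    filter_upwards [hs2, small H y, small H (2 * y)] with n h1 h2 h3
    have hp : (0:ℝ) ≤ 1 / √(lam n) := by positivity
    have d1 : 0 < 1 + 1 / √(lam n) * ((s n : ℂ) * y).im := by
      apply pos_of_small hp
      refine lt_of_le_of_lt ?_ h3
      apply mul_le_mul_of_nonneg_left _ hp
      rw [norm_mul, norm_mul, Complex.norm_real, Real.norm_eq_abs, Complex.norm_ofNat]
      exact mul_le_mul_of_nonneg_right h1 (norm_nonneg _)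
    have d2 := pos_of_small hp h2
    exact ((H.sm n).continuousOn.comp (mvc _ _).continuousOn
        fun z hz => (mem_HP_iff d1 z).2 hz).sub
      ((H.sm n).continuousOn.comp (mvc _ _).continuousOn fun z hz => (mem_HP_iff d2 z).2 hz)
  refine l1l2 h0 (hψ.1.continuous.integrable_of_hasCompactSupport hψ.2.1) ?_ ?_ ?_
  · exact hc.mono fun n hn => int_mulr HP_open hψ2 (hn.pow 2)
  · exact hc.mono fun n hn => int_mulr HP_open hψ2 hn.abs
  · have h1 := EQ H.sys hψ h0 (2 * y) (a := fun n => s n / 2) (b := fun _ => 1 / 2) ?_ ?_ ?_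
    · refine h1.congr fun n => ?_
      refine integral_congr_ae (Eventually.of_forall fun z => ?_)
      have e1 : mv (s n / 2 * (1 / √(lam n))) (2 * y) z = mv (1 / √(lam n)) ((s n : ℂ) * y) z := by
        unfold mv
        push_cast
        ring
      have e2 : mv (1 / 2 * (1 / √(lam n))) (2 * y) z = mv (1 / √(lam n)) y z := by
        unfold mv
        push_cast
        ring
      simp only
      rw [e1, e2, wl_zero, wl_zero, ← Complex.ofReal_sub, Complex.norm_real, Real.norm_eq_abs,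
        sq_abs]
    · have h2 : ∀ᶠ n in atTop, 0 < s n := hs.eventually (lt_mem_nhds one_pos)
      have h3 : ∀ᶠ n in atTop, s n < 2 := hs.eventually (gt_mem_nhds (by norm_num))
      filter_upwards [h2, h3] with n h2 h3
      constructor <;> linarith
    · exact Eventually.of_forall fun n => ⟨by norm_num, by norm_num⟩
    · have h2 := (hs.div_const 2).sub_const (1 / 2)
      simpa using h2

theorem claim (H : Hyp Ω lam u) {ψ : ℂ → ℝ} (hψ : TF Ω ψ) (h0 : ∀ z, 0 ≤ ψ z) {k : ℕ}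
    (t : Fin k → ℝ) (y : Fin k → ℂ) (x : ℂ) :
    Tendsto (fun n => ∫ z, (ψ z : ℂ) * (Fy (1 / √(lam n)) (u n) t (fun j => y j + x) z -
      Fy (1 / √(lam n)) (u n) t y z)) atTop (𝓝 0) := by
  have hψ2 : TF HP ψ := ⟨hψ.1, hψ.2.1, hψ.2.2.trans H.sub⟩
  have hψi : Integrable ψ := hψ.1.continuous.integrable_of_hasCompactSupport hψ.2.1
  have hh := H.sys.hlim
  obtain ⟨s, hs⟩ : ∃ s : ℕ → ℝ, s = fun n => (1 + 1 / √(lam n) * x.im)⁻¹ := ⟨_, rfl⟩
  have hslim : Tendsto s atTop (𝓝 1) := by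
    have h1 : Tendsto (fun n => 1 + 1 / √(lam n) * x.im) atTop (𝓝 1) := by
      have h2 := (hh.mul_const x.im).const_add 1
      simpa using h2
    have h3 := h1.inv₀ one_ne_zero
    rw [inv_one] at h3
    rw [hs]
    exact h3
  have hs2 : ∀ᶠ n in atTop, |s n| ≤ 2 := by
    have h1 := (hslim.abs).eventually (gt_mem_nhds (show |(1:ℝ)| < 2 by norm_num))
    exact h1.mono fun n hn => hn.le
  have hlimA := A1 hψ.1.continuous hψ.2.1 x hh
  have hlimB : Tendsto (fun n => ∑ j, |t j| * ∫ z, ψ z *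
      |u n (mv (1 / √(lam n)) ((s n : ℂ) * y j) z) - u n (mv (1 / √(lam n)) (y j) z)|) atTop
      (𝓝 0) := by
    have h1 := tendsto_finsetSum (Finset.univ : Finset (Fin k)) fun j _ =>
      (A2 H hψ h0 (y j) hslim).const_mul |t j|
    simpa using h1
  have hlim := hlimA.add hlimB
  rw [add_zero] at hlim
  rw [tendsto_zero_iff_norm_tendsto_zero]
  refine squeeze_zero' (Eventually.of_forall fun n => norm_nonneg _) ?_ hlim
  filter_upwards [hs2, small H x, eventually_all.2 fun j => small H (y j),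
    eventually_all.2 fun j => small H (y j + x), eventually_all.2 fun j => small H (2 * y j)]
    with n h1 h2 h3 h4 h5
  have hp : (0:ℝ) ≤ 1 / √(lam n) := by positivity
  have d0 := pos_of_small hp h2
  have d1 : ∀ j, 0 < 1 + 1 / √(lam n) * ((s n : ℂ) * y j).im := by
    intro j
    apply pos_of_small hp
    refine lt_of_le_of_lt ?_ (h5 j)
    apply mul_le_mul_of_nonneg_left _ hp
    rw [norm_mul, norm_mul, Complex.norm_real, Real.norm_eq_abs, Complex.norm_ofNat]
    exact mul_le_mul_of_nonneg_right h1 (norm_nonneg _)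
  have c0 := Fy_cont (H.sm n) t (h := 1 / √(lam n)) (y := y) fun j => pos_of_small hp (h3 j)
  have c1 := Fy_cont (H.sm n) t (h := 1 / √(lam n)) (y := fun j => y j + x)
    fun j => pos_of_small hp (h4 j)
  have c2 := Fy_cont (H.sm n) t (h := 1 / √(lam n)) (y := fun j => (s n : ℂ) * y j) d1
  have e1 : ∀ z, Fy (1 / √(lam n)) (u n) t (fun j => y j + x) z =
      Fy (1 / √(lam n)) (u n) t (fun j => (s n : ℂ) * y j) (mv (1 / √(lam n)) x z) := by
    intro z
    rw [Fy_comp d0, hs]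
  have i0 : Integrable (fun z => (ψ z : ℂ) * Fy (1 / √(lam n)) (u n) t y z) :=
    int_mul HP_open hψ2 c0
  have i1 : Integrable (fun z => (ψ z : ℂ) * Fy (1 / √(lam n)) (u n) t (fun j => y j + x) z) :=
    int_mul HP_open hψ2 c1
  have i2 : Integrable (fun z => (ψ z : ℂ) *
      Fy (1 / √(lam n)) (u n) t (fun j => (s n : ℂ) * y j) z) := int_mul HP_open hψ2 c2
  have e2 : ∫ z, (ψ z : ℂ) * (Fy (1 / √(lam n)) (u n) t (fun j => y j + x) z -
      Fy (1 / √(lam n)) (u n) t y z) =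
      ((∫ z, (ψ z : ℂ) * Fy (1 / √(lam n)) (u n) t (fun j => (s n : ℂ) * y j)
        (mv (1 / √(lam n)) x z)) -
      ∫ z, (ψ z : ℂ) * Fy (1 / √(lam n)) (u n) t (fun j => (s n : ℂ) * y j) z) +
      ∫ z, (ψ z : ℂ) * (Fy (1 / √(lam n)) (u n) t (fun j => (s n : ℂ) * y j) z -
        Fy (1 / √(lam n)) (u n) t y z) := by
    have f1 : ∫ z, (ψ z : ℂ) * (Fy (1 / √(lam n)) (u n) t (fun j => y j + x) z -
      Fy (1 / √(lam n)) (u n) t y z) = (∫ z, (ψ z : ℂ) * Fy (1 / √(lam n)) (u n) t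
        (fun j => y j + x) z) - ∫ z, (ψ z : ℂ) * Fy (1 / √(lam n)) (u n) t y z := by
      rw [← integral_sub i1 i0]
      simp only [mul_sub]
    have f2 : ∫ z, (ψ z : ℂ) * (Fy (1 / √(lam n)) (u n) t (fun j => (s n : ℂ) * y j) z -
      Fy (1 / √(lam n)) (u n) t y z) = (∫ z, (ψ z : ℂ) * Fy (1 / √(lam n)) (u n) t
        (fun j => (s n : ℂ) * y j) z) - ∫ z, (ψ z : ℂ) * Fy (1 / √(lam n)) (u n) t y z := by
      rw [← integral_sub i2 i0]
      simp only [mul_sub]
    rw [f1, f2]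
    simp only [e1]
    ring
  rw [e2]
  refine (norm_add_le _ _).trans (add_le_add ?_ ?_)
  · exact tf_cv d0 hψ.1.continuous hψ.2.1 hψ2.2.2 c2 (fun z => Fy_norm _ _ _ _ _)
  · have i3 : ∀ j, Integrable (fun z => ψ z *
        |u n (mv (1 / √(lam n)) ((s n : ℂ) * y j) z) - u n (mv (1 / √(lam n)) (y j) z)|) := by
      intro j
      apply int_mulr HP_open hψ2
      exact (((H.sm n).continuousOn.comp (mvc _ _).continuousOn
        fun z hz => (mem_HP_iff (d1 j) z).2 hz).sub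
      ((H.sm n).continuousOn.comp (mvc _ _).continuousOn
        fun z hz => (mem_HP_iff (pos_of_small hp (h3 j)) z).2 hz)).abs
    calc ‖∫ z, (ψ z : ℂ) * (Fy (1 / √(lam n)) (u n) t (fun j => (s n : ℂ) * y j) z -
        Fy (1 / √(lam n)) (u n) t y z)‖
        ≤ ∫ z, ∑ j, |t j| * (ψ z *
          |u n (mv (1 / √(lam n)) ((s n : ℂ) * y j) z) - u n (mv (1 / √(lam n)) (y j) z)|) := by
          refine norm_integral_le_of_norm_le
            (integrable_finsetSum _ fun j _ => (i3 j).const_mul _)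
            (Eventually.of_forall fun z => ?_)
          rw [norm_mul, Complex.norm_real, Real.norm_eq_abs, abs_of_nonneg (h0 z)]
          refine (mul_le_mul_of_nonneg_left (Fy_sub _ _ _ _ _ _) (h0 z)).trans (le_of_eq ?_)
          rw [Finset.mul_sum]
          refine Finset.sum_congr rfl fun j _ => ?_
          ring
      _ = ∑ j, |t j| * ∫ z, ψ z *
          |u n (mv (1 / √(lam n)) ((s n : ℂ) * y j) z) - u n (mv (1 / √(lam n)) (y j) z)| := by
          rw [integral_finsetSum _ fun j _ => (i3 j).const_mul _]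
          exact Finset.sum_congr rfl fun j _ => integral_const_mul _ _

/-! ### Random frames -/

lemma ex_true {n k : ℕ} (t : Fin k → ℝ) (w : Fin k → ℂ)
    (hw : ∀ j, 1 / √(lam n) * ‖w j‖ < 1) {z : ℂ} (hz : z ∈ HP) (θ : ℝ) :
    ex (lam n) (u n) (fun j => (t j : ℂ)) w (z, (θ, true)) =
      Fy (1 / √(lam n)) (u n) t (fun j => E θ * w j) z := by
  unfold ex Fy
  congr 3
  rw [Complex.re_sum]
  refine Finset.sum_congr rfl fun j _ => ?_
  rw [X_true (hw j) hz, zpow_zero, one_mul]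
  have h1 : FW (lam n) (u n) 0 (mv (1 / √(lam n)) (E θ * w j) z) =
    ((u n (mv (1 / √(lam n)) (E θ * w j) z) : ℝ) : ℂ) := rfl
  rw [h1, ← Complex.ofReal_mul, Complex.ofReal_re]

lemma ex_false {n k : ℕ} (t : Fin k → ℝ) (w : Fin k → ℂ)
    (hw : ∀ j, 1 / √(lam n) * ‖w j‖ < 1) {z : ℂ} (hz : z ∈ HP) (θ : ℝ) :
    ex (lam n) (u n) (fun j => (t j : ℂ)) w (z, (θ, false)) =
      Fy (1 / √(lam n)) (u n) t (fun j => E θ * starRingEnd ℂ (w j)) z := by
  unfold ex Fy
  congr 3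
  rw [Complex.re_sum]
  refine Finset.sum_congr rfl fun j _ => ?_
  rw [X_false (hw j) hz]
  simp only [Int.natAbs_zero, pow_zero, neg_zero, zpow_zero, one_mul]
  have h1 : FW (lam n) (u n) 0 (mv (1 / √(lam n)) (E θ * starRingEnd ℂ (w j)) z) =
    ((u n (mv (1 / √(lam n)) (E θ * starRingEnd ℂ (w j)) z) : ℝ) : ℂ) := rfl
  rw [h1, ← Complex.ofReal_mul, Complex.ofReal_re]

lemma convC (H : Hyp Ω lam u) {φ : ℂ → ℝ} (hφ : TF Ω φ) {g g' : ℂ → ℂ}
    (hg : ∀ z ∈ Ω, g z = g' z) :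
    ∫ z, (φ z : ℂ) * g z ∂(Pz Ω) = (((mass Ω)⁻¹ : ℝ) : ℂ) * ∫ z, (wt φ z : ℂ) * g' z := by
  rw [int_Pz (mpos H), Complex.real_smul]
  congr 1
  rw [setIntegral_eq_integral_of_forall_compl_eq_zero]
  · refine integral_congr_ae (Eventually.of_forall fun z => ?_)
    simp only
    by_cases hz : z ∈ Ω
    · rw [hg z hz, Complex.real_smul]
      unfold wt
      push_cast
      ring
    · unfold wt
      rw [Pool.Agent.TH294.RS.TF.zero hφ hz]
      simp
  · intro z hz
    rw [Pool.Agent.TH294.RS.TF.zero hφ hz]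
    simp

lemma inner_lim (H : Hyp Ω lam u) {φ : ℂ → ℝ} (hφ : Wt Ω φ) {k : ℕ} (t : Fin k → ℝ)
    (w : Fin k → ℂ) (x : ℂ) (q : ℝ × Bool) :
    Tendsto (fun n => ∫ z, (φ z : ℂ) *
      (ex (lam n) (u n) (fun j => (t j : ℂ)) (fun j => w j + x) (z, q) -
        ex (lam n) (u n) (fun j => (t j : ℂ)) w (z, q)) ∂(Pz Ω)) atTop (𝓝 0) := by
  have hsm : ∀ᶠ n in atTop, ∀ j, 1 / √(lam n) * ‖w j‖ < 1 :=
    Filter.eventually_all.2 fun j => small H (w j)
  have hsm2 : ∀ᶠ n in atTop, ∀ j, 1 / √(lam n) * ‖w j + x‖ < 1 :=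
    Filter.eventually_all.2 fun j => small H (w j + x)
  have hw0 : ∀ z, 0 ≤ wt φ z := wt_nonneg fun z => (hφ.mem z).1
  obtain ⟨θ, b⟩ := q
  cases b
  · have h1 := (claim H (wt_tf H hφ.tf) hw0 t (fun j => E θ * starRingEnd ℂ (w j))
      (E θ * starRingEnd ℂ x)).const_mul (((mass Ω)⁻¹ : ℝ) : ℂ)
    rw [mul_zero] at h1
    refine h1.congr' ?_
    filter_upwards [hsm, hsm2] with n hn hn2
    rw [convC H hφ.tf]
    intro z hz
    rw [ex_false t _ hn (H.sub hz), ex_false t _ hn2 (H.sub hz)]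
    simp only [map_add, mul_add]
  · have h1 := (claim H (wt_tf H hφ.tf) hw0 t (fun j => E θ * w j)
      (E θ * x)).const_mul (((mass Ω)⁻¹ : ℝ) : ℂ)
    rw [mul_zero] at h1
    refine h1.congr' ?_
    filter_upwards [hsm, hsm2] with n hn hn2
    rw [convC H hφ.tf]
    intro z hz
    rw [ex_true t _ hn (H.sub hz), ex_true t _ hn2 (H.sub hz)]
    simp only [mul_add]

lemma wnorm {φ : ℂ → ℝ} (hφ : Wt Ω φ) (z : ℂ) : ‖(φ z : ℂ)‖ ≤ 1 := by
  rw [Complex.norm_real, Real.norm_eq_abs, abs_of_nonneg (hφ.mem _).1]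
  exact (hφ.mem _).2

lemma outer_lim (H : Hyp Ω lam u) {φ : ℂ → ℝ} (hφ : Wt Ω φ) {k : ℕ} (t : Fin k → ℝ)
    (w : Fin k → ℂ) (x : ℂ) :
    Tendsto (fun n => ∫ p, (φ p.1 : ℂ) *
      (ex (lam n) (u n) (fun j => (t j : ℂ)) (fun j => w j + x) p -
        ex (lam n) (u n) (fun j => (t j : ℂ)) w p) ∂(P Ω)) atTop (𝓝 0) := by
  have := probz H
  have := probP H
  have hm : ∀ n, Measurable fun p : ℂ × (ℝ × Bool) => (φ p.1 : ℂ) *
      (ex (lam n) (u n) (fun j => (t j : ℂ)) (fun j => w j + x) p -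
        ex (lam n) (u n) (fun j => (t j : ℂ)) w p) := fun n =>
    (Complex.measurable_ofReal.comp (hφ.tf.1.continuous.measurable.comp measurable_fst)).mul
      ((ex_meas (H.sm n) _ _).sub (ex_meas (H.sm n) _ _))
  have hb : ∀ n (p : ℂ × (ℝ × Bool)), ‖(φ p.1 : ℂ) *
      (ex (lam n) (u n) (fun j => (t j : ℂ)) (fun j => w j + x) p -
        ex (lam n) (u n) (fun j => (t j : ℂ)) w p)‖ ≤ 2 := by
    intro n p
    rw [norm_mul]
    calc ‖(φ p.1 : ℂ)‖ * ‖ex (lam n) (u n) (fun j => (t j : ℂ)) (fun j => w j + x) p -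
        ex (lam n) (u n) (fun j => (t j : ℂ)) w p‖ ≤ 1 * (1 + 1) := by
          refine mul_le_mul (wnorm hφ _) ((norm_sub_le _ _).trans ?_) (norm_nonneg _) zero_le_one
          rw [ex_norm, ex_norm]
      _ = 2 := by norm_num
  have key := tendsto_integral_filter_of_dominated_convergence (μ := Q) (l := atTop)
    (F := fun n q => ∫ z, (φ z : ℂ) *
      (ex (lam n) (u n) (fun j => (t j : ℂ)) (fun j => w j + x) (z, q) -
        ex (lam n) (u n) (fun j => (t j : ℂ)) w (z, q)) ∂(Pz Ω)) (f := fun _ => 0)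
    (fun _ => 2) (Eventually.of_forall fun n =>
      ((hm n).stronglyMeasurable.integral_prod_left' (μ := Pz Ω)).aestronglyMeasurable)
    (Eventually.of_forall fun n => Eventually.of_forall fun q => by
      refine (norm_integral_le_of_norm_le (integrable_const (2:ℝ))
        (Eventually.of_forall fun z => hb n (z, q))).trans ?_
      simp) (integrable_const (2:ℝ))
    (Eventually.of_forall fun q => inner_lim H hφ t w x q)
  rw [integral_zero] at key
  refine key.congr fun n => ?_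
  have hI : Integrable (fun p : ℂ × (ℝ × Bool) => (φ p.1 : ℂ) *
      (ex (lam n) (u n) (fun j => (t j : ℂ)) (fun j => w j + x) p -
        ex (lam n) (u n) (fun j => (t j : ℂ)) w p)) (P Ω) :=
    Integrable.of_bound (hm n).aestronglyMeasurable 2 (Eventually.of_forall fun p => hb n p)
  unfold P at hI ⊢
  exact (integral_prod_symm _ hI).symm

theorem STATH : S_STATH := by
  intro Ω hΩ hU hne hint lam hpos hlam u hu heq hqe μ hμ hloc
  obtain ⟨σ, hσ, hloc⟩ := hloc
  have H : Hyp Ω (fun n => lam (σ n)) (fun n => u (σ n)) :=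
    ⟨hΩ, hU, hne, hint, fun n => hpos _, hlam.comp hσ.tendsto_atTop, fun n => hu _,
      fun n => heq _, fun φ hφ k => (hqe φ hφ k).comp hσ.tendsto_atTop⟩
  have := probz H
  have := probP H
  apply stat_of_char μ hμ
  intro x k w t
  -- the characteristic functions converge
  have hA : ∀ y : Fin k → ℂ, Tendsto (fun n => ∫ p, ex (lam (σ n)) (u (σ n))
      (fun j => (t j : ℂ)) y p ∂(P Ω)) atTop
      (𝓝 (∫ f, Complex.exp (I * (lin y t f : ℝ)) ∂μ)) := by
    intro y
    refine (hloc k y t).congr' ?_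
    have hsm : ∀ᶠ n in atTop, ∀ j, 1 / √(lam (σ n)) * ‖y j‖ < 1 :=
      Filter.eventually_all.2 fun j => small H (y j)
    filter_upwards [hsm] with n hn
    have h1 := chr H (n := n) (fun j => (t j : ℂ)) y hn
    simp only [Complex.ofReal_re] at h1
    exact h1.symm
  obtain ⟨φ, hφ, hφ1⟩ := exists_wt H
  have hle : ∀ i, ‖(∫ f, Complex.exp (I * (lin (fun j => w j + x) t f : ℝ)) ∂μ) -
      ∫ f, Complex.exp (I * (lin w t f : ℝ)) ∂μ‖ ≤ 2 * (1 - ∫ z, φ i z ∂(Pz Ω)) := by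
    intro i
    have h1 := (hA fun j => w j + x).sub (hA w)
    have h2 := (h1.sub (outer_lim H (hφ i) t w x)).norm
    rw [sub_zero] at h2
    refine le_of_tendsto h2 (Eventually.of_forall fun n => ?_)
    have hi : ∀ y : Fin k → ℂ, Integrable (ex (lam (σ n)) (u (σ n))
        (fun j => (t j : ℂ)) y) (P Ω) := fun y =>
      Integrable.of_bound (ex_meas (H.sm n) _ _).aestronglyMeasurable 1
        (Eventually.of_forall fun p => (ex_norm _ _ _ _ p).le)
    have hφm : Measurable fun p : ℂ × (ℝ × Bool) => φ i p.1 :=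
      (hφ i).tf.1.continuous.measurable.comp measurable_fst
    have hφi : Integrable (fun p : ℂ × (ℝ × Bool) => φ i p.1) (P Ω) :=
      Integrable.of_bound hφm.aestronglyMeasurable 1 (Eventually.of_forall fun p => by
        rw [Real.norm_eq_abs, abs_of_nonneg ((hφ i).mem _).1]
        exact ((hφ i).mem _).2)
    have hi2 : Integrable (fun p => (φ i p.1 : ℂ) *
        (ex (lam (σ n)) (u (σ n)) (fun j => (t j : ℂ)) (fun j => w j + x) p -
          ex (lam (σ n)) (u (σ n)) (fun j => (t j : ℂ)) w p)) (P Ω) := by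
      have h3 := ((hi fun j => w j + x).sub (hi w)).bdd_mul (c := 1)
        (f := fun p : ℂ × (ℝ × Bool) => (φ i p.1 : ℂ))
        (Complex.measurable_ofReal.comp hφm).aestronglyMeasurable
        (Eventually.of_forall fun p => wnorm (hφ i) _)
      exact h3
    have hi3 : Integrable (fun p =>
        ex (lam (σ n)) (u (σ n)) (fun j => (t j : ℂ)) (fun j => w j + x) p -
          ex (lam (σ n)) (u (σ n)) (fun j => (t j : ℂ)) w p) (P Ω) := (hi _).sub (hi w)
    rw [← integral_sub (hi _) (hi w), ← integral_sub hi3 hi2]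
    have h4 : ∫ p, 2 * (1 - φ i p.1) ∂(P Ω) = 2 * (1 - ∫ z, φ i z ∂(Pz Ω)) := by
      rw [integral_const_mul, integral_sub (integrable_const _) hφi, fstP H (φ i)]
      simp
    rw [← h4]
    refine norm_integral_le_of_norm_le (((integrable_const (1:ℝ)).sub hφi).const_mul 2)
      (Eventually.of_forall fun p => ?_)
    have h5 : ∀ a b c : ℂ, a - b - c * (a - b) = (1 - c) * (a - b) := fun a b c => by ring
    rw [h5]
    rw [norm_mul]
    have h6 : ‖1 - (φ i p.1 : ℂ)‖ = 1 - φ i p.1 := by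
      have : (1 : ℂ) - (φ i p.1 : ℂ) = ((1 - φ i p.1 : ℝ) : ℂ) := by push_cast; ring
      rw [this, Complex.norm_real, Real.norm_eq_abs, abs_of_nonneg]
      linarith [((hφ i).mem p.1).2]
    rw [h6]
    have h7 : ‖ex (lam (σ n)) (u (σ n)) (fun j => (t j : ℂ)) (fun j => w j + x) p -
          ex (lam (σ n)) (u (σ n)) (fun j => (t j : ℂ)) w p‖ ≤ 2 := by
      refine (norm_sub_le _ _).trans ?_
      rw [ex_norm, ex_norm]
      norm_num
    have h8 : 0 ≤ 1 - φ i p.1 := by linarith [((hφ i).mem p.1).2]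
    calc (1 - φ i p.1) * _ ≤ (1 - φ i p.1) * 2 := mul_le_mul_of_nonneg_left h7 h8
      _ = 2 * (1 - φ i p.1) := by ring
  have h0 : Tendsto (fun i => 2 * (1 - ∫ z, φ i z ∂(Pz Ω))) atTop (𝓝 0) := by
    have := (hφ1.const_sub 1).const_mul 2
    simpa using this
  have h9 := ge_of_tendsto' h0 hle
  exact sub_eq_zero.1 (norm_le_zero_iff.1 h9)

end Pool.Agent.N40.BRSTATH
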