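import Pool.Agent.N645.BHISOH

/-!
# Project BR/BH, part STATH, first file: equicontinuity of displaced ladders (helper40)
-/

set_option autoImplicit false
open MeasureTheory Filter Topology Complex
open scoped ContDiff

namespace Pool.Agent.N40.BRSTATH

open Pool.Agent.W745.RW (dx dy TF CC)
open Pool.Agent.TH294.RS (dd db DP DM)
open Pool.Agent.Y265.RW (int_mul int_mulr)
open Pool.Agent.Y265.HY (SY M2C)
open Pool.Agent.N661.BH (mv)
open Pool.Agent.N645.BH

variable {B : Set ℂ} {h : ℕ → ℝ} {w : ℤ → ℕ → ℂ → ℂ}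

theorem EQ (H : SY B Complex.im h w) {φ : ℂ → ℝ} (hφ : TF B φ) (h0 : ∀ z, 0 ≤ φ z) (v : ℂ)
    {a b : ℕ → ℝ} (ha : ∀ᶠ n in atTop, a n ∈ Set.Icc (0:ℝ) 1)
    (hb : ∀ᶠ n in atTop, b n ∈ Set.Icc (0:ℝ) 1)
    (hab : Tendsto (fun n => a n - b n) atTop (𝓝 0)) :
    Tendsto (fun n => ∫ z, φ z *
      ‖w 0 n (mv (a n * h n) v z) - w 0 n (mv (b n * h n) v z)‖ ^ 2) atTop (𝓝 0) := by
  obtain ⟨U, K', δ, M, c⟩ := cfe H.op hφ
  have hφU : TF U φ := ⟨hφ.1, hφ.2.1, c.sU⟩
  obtain ⟨A, hA0, hA⟩ := A0 H c.hK c.KB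
  have hsm := sm H.hlim H.hpos c.dp v
  obtain ⟨e, he, he'⟩ := H.up 0
  obtain ⟨e2, he2, he2'⟩ := H.dn 0
  obtain ⟨F, hFd⟩ : ∃ F : ℕ → ℂ → ℂ, F = fun n z => v / 2 * (w (0 + 1) n z + (h n : ℂ) * e n z) +
      (starRingEnd ℂ) v / 2 * (- w (0 - 1) n z + (h n : ℂ) * e2 n z) := ⟨_, rfl⟩
  have hF : M2C B h F := by
    rw [hFd]
    exact M2C.add H.op
      (M2C.cmul H.op H.hlim (M2C.add H.op (H.bd _) (M2C.hmul H.op H.hlim he)) _)
      (M2C.cmul H.op H.hlim (M2C.add H.op (M2C.neg H.op H.hlim (H.bd _))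
        (M2C.hmul H.op H.hlim he2)) _)
  obtain ⟨CF, hCF⟩ := hF.lb.bd K' c.hK c.KB
  have hM0 := c.M0
  have key : ∀ᶠ n in atTop, ∫ z, φ z *
      ‖w 0 n (mv (a n * h n) v z) - w 0 n (mv (b n * h n) v z)‖ ^ 2 ≤
      2 * (8 * M * A + 2 * M * CF) * |a n - b n| := by
    filter_upwards [ha, hb, hsm, hCF, hA 0] with n ha hb hs hCF hA
    have t2 : ∀ t ∈ Set.Icc (0:ℝ) 1, |t| ≤ 2 := fun t ht => by
      rw [abs_of_nonneg ht.1]; linarith [ht.2]
    have hsa := hs _ (t2 _ ha)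
    have hsb := hs _ (t2 _ hb)
    obtain ⟨G, hG⟩ : ∃ G : ℂ → ℂ, G = fun z => (starRingEnd ℂ)
      (w 0 n (mv (a n * h n) v z) - w 0 n (mv (b n * h n) v z)) := ⟨_, rfl⟩
    have ca := c.co hsa ((H.bd 0).co n)
    have cb := c.co hsb ((H.bd 0).co n)
    have hGc : ContinuousOn G U := by
      rw [hG]
      exact Complex.continuous_conj.comp_continuousOn (ca.sub cb)
    have hGb : ∫ z, |φ z| * ‖G z‖ ^ 2 ≤ 8 * M * A := by
      have i1 := int_abs c.hU hφU ca
      have i2 := int_abs c.hU hφU cb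
      have b1 := (c.bd hsa ((H.bd 0).co n)).trans (mul_le_mul_of_nonneg_left hA
        (mul_nonneg (by norm_num) hM0))
      have b2 := (c.bd hsb ((H.bd 0).co n)).trans (mul_le_mul_of_nonneg_left hA
        (mul_nonneg (by norm_num) hM0))
      calc ∫ z, |φ z| * ‖G z‖ ^ 2 ≤ ∫ z, (2 * (|φ z| * ‖w 0 n (mv (a n * h n) v z)‖ ^ 2) +
            2 * (|φ z| * ‖w 0 n (mv (b n * h n) v z)‖ ^ 2)) := by
            refine integral_mono (int_abs c.hU hφU hGc) ((i1.const_mul 2).add (i2.const_mul 2))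
              fun z => ?_
            simp only [hG, RCLike.norm_conj]
            have h1 := norm_sub_le (w 0 n (mv (a n * h n) v z)) (w 0 n (mv (b n * h n) v z))
            have h2 : ‖w 0 n (mv (a n * h n) v z) - w 0 n (mv (b n * h n) v z)‖ ^ 2 ≤
              2 * ‖w 0 n (mv (a n * h n) v z)‖ ^ 2 + 2 * ‖w 0 n (mv (b n * h n) v z)‖ ^ 2 := by
              have h3 := pow_le_pow_left₀ (norm_nonneg _) h1 2
              nlinarith [sq_nonneg (‖w 0 n (mv (a n * h n) v z)‖ - ‖w 0 n (mv (b n * h n) v z)‖)]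
            have h4 := mul_le_mul_of_nonneg_left h2 (abs_nonneg (φ z))
            linarith
        _ = 2 * (∫ z, |φ z| * ‖w 0 n (mv (a n * h n) v z)‖ ^ 2) +
            2 * (∫ z, |φ z| * ‖w 0 n (mv (b n * h n) v z)‖ ^ 2) := by
            rw [integral_add (i1.const_mul 2) (i2.const_mul 2), integral_const_mul,
              integral_const_mul]
        _ ≤ 8 * M * A := by linarith
    have hder : ∀ t ∈ Set.Icc (0:ℝ) 1, HasDerivAt
        (fun t : ℝ => ∫ z, (φ z : ℂ) * (G z * w 0 n (mv (t * h n) v z)))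
        (∫ z, (φ z : ℂ) * (G z * fderiv ℝ (w 0 n) (mv (t * h n) v z)
          (((h n * z.im : ℝ) : ℂ) * v))) t := fun t ht =>
      der c.hU c.UK hφU c.hK H.op c.KB (fun z hz t ht => c.mem z hz _ _ (hs t ht)) hGc
        ((H.bd 0).sm n) ht
    have hbd : ∀ t ∈ Set.Icc (0:ℝ) 1, ‖∫ z, (φ z : ℂ) * (G z * fderiv ℝ (w 0 n) (mv (t * h n) v z)
          (((h n * z.im : ℝ) : ℂ) * v))‖ ≤ 2 * (8 * M * A + 2 * M * CF) := by
      intro t ht
      have hst := hs t (t2 t ht)
      have hdet : 1 / 2 ≤ 1 + t * h n * v.im := c.det hst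
      have hdet0 : 1 + t * h n * v.im ≠ 0 := by linarith
      have e1 : ∫ z, (φ z : ℂ) * (G z * fderiv ℝ (w 0 n) (mv (t * h n) v z)
          (((h n * z.im : ℝ) : ℂ) * v)) = (((1 + t * h n * v.im)⁻¹ : ℝ) : ℂ) *
          ∫ z, (φ z : ℂ) * (G z * F n (mv (t * h n) v z)) := by
        rw [← integral_const_mul]
        refine integral_congr_ae (Eventually.of_forall fun z => ?_)
        simp only
        by_cases hz : z ∈ U
        · have hzB := c.KB (c.mem z hz _ _ hst)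
          rw [fd_mv (mv_im (t * h n) v z) hdet0, he' n _ hzB, he2' n _ hzB, hFd]
          ring
        · rw [Pool.Agent.Y265.RW.TF.zero hφU hz]; simp
      rw [e1, norm_mul, Complex.norm_real, Real.norm_eq_abs]
      have hκ1 : |(1 + t * h n * v.im)⁻¹| ≤ 2 := by
        rw [abs_of_nonneg (inv_nonneg.2 (by linarith)), inv_le_comm₀ (by linarith)
          (by norm_num)]
        linarith
      have h5 := c.co hst (hF.co n)
      refine mul_le_mul hκ1 ((pair_bd c.hU hφU hGc h5).trans (add_le_add hGb ?_)) (norm_nonneg _)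
        (by norm_num)
      exact (c.bd hst (hF.co n)).trans (mul_le_mul_of_nonneg_left hCF
        (mul_nonneg (by norm_num) hM0))
    have hmv := Convex.norm_image_sub_le_of_norm_hasDerivWithin_le (s := Set.Icc (0:ℝ) 1)
      (f := fun t : ℝ => ∫ z, (φ z : ℂ) * (G z * w 0 n (mv (t * h n) v z)))
      (fun t ht => (hder t ht).hasDerivWithinAt) hbd (convex_Icc 0 1) hb ha
    rw [Real.norm_eq_abs] at hmv
    refine le_trans (le_of_eq ?_) hmv
    have i1 : Integrable fun z => (φ z : ℂ) * (G z * w 0 n (mv (a n * h n) v z)) :=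
      int_mul c.hU hφU (hGc.mul ca)
    have i2 : Integrable fun z => (φ z : ℂ) * (G z * w 0 n (mv (b n * h n) v z)) :=
      int_mul c.hU hφU (hGc.mul cb)
    rw [← integral_sub i1 i2]
    have e2 : ∫ z, ((φ z : ℂ) * (G z * w 0 n (mv (a n * h n) v z)) -
        (φ z : ℂ) * (G z * w 0 n (mv (b n * h n) v z))) =
        ((∫ z, φ z * ‖w 0 n (mv (a n * h n) v z) - w 0 n (mv (b n * h n) v z)‖ ^ 2 : ℝ) : ℂ) := by
      rw [← integral_complex_ofReal]
      refine integral_congr_ae (Eventually.of_forall fun z => ?_)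
      simp only [hG]
      have h6 := Complex.mul_conj (w 0 n (mv (a n * h n) v z) - w 0 n (mv (b n * h n) v z))
      rw [Complex.normSq_eq_norm_sq] at h6
      push_cast at h6 ⊢
      rw [← h6]
      ring
    rw [e2, Complex.norm_real, Real.norm_eq_abs, abs_of_nonneg]
    exact integral_nonneg fun z => mul_nonneg (h0 z) (by positivity)
  have hlim : Tendsto (fun n => 2 * (8 * M * A + 2 * M * CF) * |a n - b n|) atTop (𝓝 0) := by
    have h1 := (hab.abs).const_mul (2 * (8 * M * A + 2 * M * CF))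
    simpa using h1
  exact squeeze_zero' (Eventually.of_forall fun n => integral_nonneg fun z =>
    mul_nonneg (h0 z) (by positivity)) key hlim

end Pool.Agent.N40.BRSTATH
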