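import Pool.Agent.N40.BRSTATH1
import Pool.Agent.N40.BRSTAT
import Pool.Agent.N814.BHASM

/-!
# Project BR/BH, part STATH, second file: moving the base point (helper40)
-/

set_option autoImplicit false
open MeasureTheory Filter Topology Complex
open scoped ContDiff

namespace Pool.Agent.N40.BRSTATH

open Pool.Agent.W745.RW (dx dy TF)
open Pool.Agent.Y265.RW (int_mul int_mulr)
open Pool.Agent.Y265.HY (SY FW)
open Pool.Agent.N661.BH
open Pool.Agent.N645.BH (L L_det)
open Pool.Agent.N40.BRSTAT (int_phase)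
open Pool.Agent.N814.BHASM (Hyp wl wl_eq HP_open)

/-! ### The linear maps -/

lemma mvc (s : ℝ) (v : ℂ) : Continuous (mv s v) := Pool.Agent.N645.BH.mv_cont s v

lemma CV {s : ℝ} {v : ℂ} (hd : 0 < 1 + s * v.im) {g : ℂ → ℂ} (hg : Integrable g) :
    Integrable (fun z => g (mv s v z)) ∧
      (((1 + s * v.im : ℝ)) : ℂ) * ∫ z, g (mv s v z) = ∫ z, g z := by
  have hdet : LinearMap.det (L s v) ≠ 0 := by
    rw [L_det]; exact hd.ne'
  have hm := Measure.map_linearMap_addHaar_eq_smul_addHaar (volume : Measure ℂ) hdet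
  have hmeas : Measurable (L s v) := (mvc s v).measurable
  have hi : Integrable g (Measure.map (L s v) volume) := by
    rw [hm]; exact hg.smul_measure ENNReal.ofReal_ne_top
  refine ⟨(integrable_map_measure hi.1 hmeas.aemeasurable).1 hi, ?_⟩
  have h1 : ∫ z, g (mv s v z) = ∫ y, g y ∂(Measure.map (L s v) volume) :=
    (integral_map hmeas.aemeasurable hi.1).symm
  rw [h1, hm, integral_smul_measure, ENNReal.toReal_ofReal (abs_nonneg _), L_det,
    Complex.real_smul, ← mul_assoc, ← Complex.ofReal_mul, abs_of_pos (inv_pos.2 hd),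
    mul_inv_cancel₀ hd.ne', Complex.ofReal_one, one_mul]

lemma mem_HP_iff {s : ℝ} {v : ℂ} (hd : 0 < 1 + s * v.im) (z : ℂ) : mv s v z ∈ HP ↔ z ∈ HP := by
  show 0 < (mv s v z).im ↔ 0 < z.im
  rw [Pool.Agent.N645.BH.mv_im]
  constructor
  · intro h
    exact (pos_iff_pos_of_mul_pos h).2 hd
  · intro h
    exact mul_pos h hd

/-- moving the weight -/
lemma A1 {ψ : ℂ → ℝ} (h1 : Continuous ψ) (h2 : HasCompactSupport ψ) (x : ℂ) {h : ℕ → ℝ}
    (hh : Tendsto h atTop (𝓝 0)) :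
    Tendsto (fun n => ∫ z, |ψ z - (1 + h n * x.im) * ψ (mv (h n) x z)|) atTop (𝓝 0) := by
  obtain ⟨R, hR⟩ := h2.isBounded.subset_closedBall (0 : ℂ)
  obtain ⟨C, hC⟩ := h1.bounded_above_of_compact_support h2
  have hC0 : 0 ≤ C := (norm_nonneg _).trans (hC 0)
  have hz : (0 : ℝ) = ∫ _ : ℂ, (0 : ℝ) := by simp
  have hnx : Tendsto (fun n => |h n| * ‖x‖) atTop (𝓝 0) := by
    have := (hh.abs).mul_const ‖x‖
    simpa using this
  have hev : ∀ᶠ n in atTop, |h n| * ‖x‖ < 1 / 2 := hnx.eventually (gt_mem_nhds (by norm_num))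
  rw [hz]
  refine tendsto_integral_filter_of_dominated_convergence
    (fun z => (Metric.closedBall (0 : ℂ) (2 * |R| + 1)).indicator (fun _ => 3 * C) z) ?_ ?_ ?_ ?_
  · refine Eventually.of_forall fun n => ?_
    have h3 := h1.comp (mvc (h n) x)
    have h4 : Continuous (fun z : ℂ => |ψ z - (1 + h n * x.im) * ψ (mv (h n) x z)|) :=
      (h1.sub (continuous_const.mul h3)).abs
    exact h4.aestronglyMeasurable
  · filter_upwards [hev] with n hn
    refine Eventually.of_forall fun z => ?_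
    rw [Real.norm_eq_abs, abs_abs]
    have him : |h n * x.im| ≤ 1 / 2 := by
      rw [abs_mul]
      exact (mul_le_mul_of_nonneg_left (Complex.abs_im_le_norm x) (abs_nonneg _)).trans hn.le
    by_cases hz : z ∈ Metric.closedBall (0 : ℂ) (2 * |R| + 1)
    · rw [Set.indicator_of_mem hz]
      have e1 := hC (mv (h n) x z)
      have e2 := hC z
      rw [Real.norm_eq_abs] at e1 e2
      have e3 : |1 + h n * x.im| ≤ 2 := by
        rw [abs_le] at him ⊢
        constructor <;> linarith [him.1, him.2]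
      calc |ψ z - (1 + h n * x.im) * ψ (mv (h n) x z)|
          ≤ |ψ z| + |(1 + h n * x.im) * ψ (mv (h n) x z)| := abs_sub _ _
        _ ≤ C + 2 * C := by
            rw [abs_mul]
            exact add_le_add e2 (mul_le_mul e3 e1 (abs_nonneg _) (by norm_num))
        _ = 3 * C := by ring
    · rw [Set.indicator_of_notMem hz]
      have hz' : 2 * |R| + 1 < ‖z‖ := by
        rw [mem_closedBall_zero_iff, not_le] at hz
        exact hz
      have hRR := le_abs_self R
      have hR0 := abs_nonneg R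
      have e1 : ψ z = 0 := by
        apply image_eq_zero_of_notMem_tsupport
        intro hmem
        have := hR hmem
        rw [mem_closedBall_zero_iff] at this
        linarith
      have e2 : ψ (mv (h n) x z) = 0 := by
        apply image_eq_zero_of_notMem_tsupport
        intro hmem
        have h5 := hR hmem
        rw [mem_closedBall_zero_iff] at h5
        have h6 : ‖mv (h n) x z - z‖ ≤ 1 / 2 * ‖z‖ := by
          unfold mv
          rw [add_sub_cancel_left, norm_mul, Complex.norm_real, Real.norm_eq_abs, abs_mul]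
          calc |h n| * |z.im| * ‖x‖ = (|h n| * ‖x‖) * |z.im| := by ring
            _ ≤ 1 / 2 * ‖z‖ := mul_le_mul hn.le (Complex.abs_im_le_norm z) (abs_nonneg _)
                (by norm_num)
        have h7 : ‖z‖ ≤ ‖mv (h n) x z‖ + ‖mv (h n) x z - z‖ := by
          have := norm_sub_le (mv (h n) x z) (mv (h n) x z - z)
          rwa [sub_sub_cancel] at this
        linarith
      rw [e1, e2]
      simp
  · refine (integrable_indicator_iff Metric.isClosed_closedBall.measurableSet).2 ?_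
    exact integrableOn_const (isCompact_closedBall _ _).measure_lt_top.ne
  · refine Eventually.of_forall fun z => ?_
    have h3 : Tendsto (fun n => mv (h n) x z) atTop (𝓝 z) := by
      have h5 : Tendsto (fun n => ((h n * z.im : ℝ) : ℂ)) atTop (𝓝 ((0 * z.im : ℝ) : ℂ)) :=
        (Complex.continuous_ofReal.tendsto _).comp (hh.mul_const _)
      have h6 := (h5.mul_const x).const_add z
      simpa [mv] using h6
    have h4 : Tendsto (fun n => ψ (mv (h n) x z)) atTop (𝓝 (ψ z)) := (h1.tendsto _).comp h3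
    have h5 : Tendsto (fun n => 1 + h n * x.im) atTop (𝓝 1) := by
      have := (hh.mul_const x.im).const_add 1
      simpa using this
    have h6 := ((h5.mul h4).const_sub (ψ z)).abs
    simpa using h6

lemma tf_cv {s : ℝ} {v : ℂ} (hd : 0 < 1 + s * v.im) {ψ : ℂ → ℝ} (h1 : Continuous ψ)
    (h2 : HasCompactSupport ψ) (h3 : tsupport ψ ⊆ HP) {F : ℂ → ℂ} (hF : ContinuousOn F HP)
    (hF1 : ∀ z, ‖F z‖ = 1) :
    ‖(∫ z, (ψ z : ℂ) * F (mv s v z)) - ∫ z, (ψ z : ℂ) * F z‖ ≤
      ∫ z, |ψ z - (1 + s * v.im) * ψ (mv s v z)| := by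
  have hψ0 : ∀ z, z ∉ HP → ψ z = 0 := fun z hz =>
    image_eq_zero_of_notMem_tsupport fun hm => hz (h3 hm)
  have i0 : Integrable (fun z => (ψ z : ℂ) * F z) := int_phase h1 h2 HP_open hF hF1 hψ0
  obtain ⟨i1, e1⟩ := CV hd i0
  have hFT : ContinuousOn (fun z => F (mv s v z)) HP :=
    hF.comp (mvc s v).continuousOn fun z hz => (mem_HP_iff hd z).2 hz
  have i2 : Integrable (fun z => (ψ z : ℂ) * F (mv s v z)) :=
    int_phase h1 h2 HP_open hFT (fun z => hF1 _) hψ0
  rw [← e1, ← integral_const_mul, ← integral_sub i2 (i1.const_mul _)]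
  refine (norm_integral_le_integral_norm _).trans (le_of_eq ?_)
  refine integral_congr_ae (Eventually.of_forall fun z => ?_)
  simp only
  have e2 : (ψ z : ℂ) * F (mv s v z) - ((1 + s * v.im : ℝ) : ℂ) * ((ψ (mv s v z) : ℂ) *
      F (mv s v z)) = ((ψ z - (1 + s * v.im) * ψ (mv s v z) : ℝ) : ℂ) * F (mv s v z) := by
    push_cast
    ring
  rw [e2, norm_mul, hF1, mul_one, Complex.norm_real, Real.norm_eq_abs]

/-! ### The phases -/

/-- the phase -/
noncomputable def Fy (h : ℝ) (u : ℂ → ℝ) {k : ℕ} (t : Fin k → ℝ) (y : Fin k → ℂ) (z : ℂ) : ℂ :=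
  Complex.exp (I * ((∑ j, t j * u (mv h (y j) z) : ℝ) : ℂ))

lemma Fy_norm (h : ℝ) (u : ℂ → ℝ) {k : ℕ} (t : Fin k → ℝ) (y : Fin k → ℂ) (z : ℂ) :
    ‖Fy h u t y z‖ = 1 := Complex.norm_exp_I_mul_ofReal _

lemma Fy_cont {h : ℝ} {u : ℂ → ℝ} (hu : ContDiffOn ℝ ∞ u HP) {k : ℕ} (t : Fin k → ℝ)
    {y : Fin k → ℂ} (hd : ∀ j, 0 < 1 + h * (y j).im) : ContinuousOn (Fy h u t y) HP := by
  unfold Fy
  apply Complex.continuous_exp.comp_continuousOn
  apply continuousOn_const.mul
  apply Complex.continuous_ofReal.comp_continuousOn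
  apply continuousOn_finsetSum
  intro j _
  apply continuousOn_const.mul
  exact hu.continuousOn.comp (mvc h (y j)).continuousOn fun z hz => (mem_HP_iff (hd j) z).2 hz

lemma exp_sub (a b : ℝ) : ‖Complex.exp (I * (a : ℂ)) - Complex.exp (I * (b : ℂ))‖ ≤ |a - b| := by
  have h1 : Complex.exp (I * (a : ℂ)) - Complex.exp (I * (b : ℂ)) =
      Complex.exp (I * (b : ℂ)) * (Complex.exp (I * ((a - b : ℝ) : ℂ)) - 1) := by
    rw [mul_sub, ← Complex.exp_add, mul_one]
    congr 2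
    push_cast
    ring
  rw [h1, norm_mul, Complex.norm_exp_I_mul_ofReal, one_mul]
  exact Real.norm_exp_I_mul_ofReal_sub_one_le

lemma Fy_sub (h : ℝ) (u : ℂ → ℝ) {k : ℕ} (t : Fin k → ℝ) (y y' : Fin k → ℂ) (z : ℂ) :
    ‖Fy h u t y z - Fy h u t y' z‖ ≤ ∑ j, |t j| * |u (mv h (y j) z) - u (mv h (y' j) z)| := by
  unfold Fy
  refine (exp_sub _ _).trans ?_
  rw [← Finset.sum_sub_distrib]
  refine (Finset.abs_sum_le_sum_abs _ _).trans (le_of_eq ?_)
  refine Finset.sum_congr rfl fun j _ => ?_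
  rw [← mul_sub, abs_mul]

lemma mv_scale (s h : ℝ) (v z : ℂ) : mv h ((s : ℂ) * v) z = mv (s * h) v z := by
  unfold mv
  push_cast
  ring

lemma mv_comp {h : ℝ} {x : ℂ} (hd : 0 < 1 + h * x.im) (y z : ℂ) :
    mv h ((((1 + h * x.im)⁻¹ : ℝ) : ℂ) * y) (mv h x z) = mv h (y + x) z := by
  have h1 := Pool.Agent.N645.BH.mv_im h x z
  have h2 : (((1 + h * x.im : ℝ)) : ℂ) * (((1 + h * x.im)⁻¹ : ℝ) : ℂ) = 1 := by
    rw [← Complex.ofReal_mul, mul_inv_cancel₀ hd.ne', Complex.ofReal_one]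
  have h3 : mv h ((((1 + h * x.im)⁻¹ : ℝ) : ℂ) * y) (mv h x z) =
      mv h x z + ((h * (mv h x z).im : ℝ) : ℂ) * ((((1 + h * x.im)⁻¹ : ℝ) : ℂ) * y) := rfl
  rw [h3, h1]
  have h4 : mv h x z = z + ((h * z.im : ℝ) : ℂ) * x := rfl
  have h5 : mv h (y + x) z = z + ((h * z.im : ℝ) : ℂ) * (y + x) := rfl
  rw [h4, h5]
  have h6 : ((h * (z.im * (1 + h * x.im)) : ℝ) : ℂ) = ((h * z.im : ℝ) : ℂ) *
      (((1 + h * x.im : ℝ)) : ℂ) := by
    push_cast
    ring
  rw [h6]
  linear_combination ((h * z.im : ℝ) : ℂ) * y * h2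

lemma Fy_comp {h : ℝ} {x : ℂ} (hd : 0 < 1 + h * x.im) (u : ℂ → ℝ) {k : ℕ} (t : Fin k → ℝ)
    (y : Fin k → ℂ) (z : ℂ) : Fy h u t (fun j => y j + x) z =
      Fy h u t (fun j => (((1 + h * x.im)⁻¹ : ℝ) : ℂ) * y j) (mv h x z) := by
  unfold Fy
  congr 4
  funext j
  rw [mv_comp hd]

/-! ### From second moments to first moments -/

lemma l1l2 {ψ : ℂ → ℝ} (h0 : ∀ z, 0 ≤ ψ z) (hψ : Integrable ψ) {D : ℕ → ℂ → ℝ}
    (hD : ∀ᶠ n in atTop, Integrable (fun z => ψ z * D n z ^ 2))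
    (hD1 : ∀ᶠ n in atTop, Integrable (fun z => ψ z * |D n z|))
    (hlim : Tendsto (fun n => ∫ z, ψ z * D n z ^ 2) atTop (𝓝 0)) :
    Tendsto (fun n => ∫ z, ψ z * |D n z|) atTop (𝓝 0) := by
  rw [Metric.tendsto_nhds]
  intro ε hε
  obtain ⟨m, hm⟩ : ∃ m, m = ∫ z, ψ z := ⟨_, rfl⟩
  have hm0 : 0 ≤ m := by
    rw [hm]
    exact integral_nonneg h0
  obtain ⟨η, hη, hη1⟩ : ∃ η : ℝ, 0 < η ∧ η / 2 * m < ε / 2 := by
    refine ⟨ε / (m + 1), by positivity, ?_⟩
    rw [div_div, div_mul_eq_mul_div, div_lt_div_iff₀ (by positivity) (by norm_num)]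
    nlinarith
  have h1 : Tendsto (fun n => 1 / (2 * η) * ∫ z, ψ z * D n z ^ 2) atTop (𝓝 0) := by
    have := hlim.const_mul (1 / (2 * η))
    rwa [mul_zero] at this
  filter_upwards [hD, hD1, h1.eventually (gt_mem_nhds (show 0 < ε / 2 by positivity))]
    with n i1 i2 hn
  rw [dist_zero_right, Real.norm_eq_abs, abs_of_nonneg
    (integral_nonneg fun z => mul_nonneg (h0 z) (abs_nonneg _))]
  have h2 : ∫ z, ψ z * |D n z| ≤ ∫ z, (η / 2 * ψ z + 1 / (2 * η) * (ψ z * D n z ^ 2)) := by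
    refine integral_mono i2 ((hψ.const_mul _).add (i1.const_mul _)) fun z => ?_
    have h3 : |D n z| ≤ η / 2 + 1 / (2 * η) * D n z ^ 2 := by
      have h4 : 0 ≤ (|D n z| - η) ^ 2 := sq_nonneg _
      have h5 : η / 2 + 1 / (2 * η) * D n z ^ 2 - |D n z| = (|D n z| - η) ^ 2 / (2 * η) := by
        rw [← sq_abs (D n z)]
        field_simp
        ring
      have h6 : 0 ≤ (|D n z| - η) ^ 2 / (2 * η) := by positivity
      linarith
    have h7 := mul_le_mul_of_nonneg_left h3 (h0 z)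
    simp only
    linarith
  rw [integral_add (hψ.const_mul _) (i1.const_mul _), integral_const_mul, integral_const_mul,
    ← hm] at h2
  linarith

end Pool.Agent.N40.BRSTATH
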