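import Pool.Agent.N906.FH.Stm

/-!
# Project FH (helper906), DENJ (helper40): the denominator of the modular invariant
-/

set_option autoImplicit false

namespace Pool.Agent.N40.FH

open Pool.Agent.N906.SZ Pool.Agent.N906.FH

theorem jE_eq {a b : ℤ} (hD : Dd a b ≠ 0) : jE a b = 6912 * (a : ℚ) ^ 3 / (Dd a b : ℤ) := by
  have h1 : (Ec a b).c₄ = 48 * a := by
    unfold Ec
    simp only [WeierstrassCurve.c₄, WeierstrassCurve.b₂, WeierstrassCurve.b₄]
    ring
  have h2 : (Ec a b).Δ = 16 * ((Dd a b : ℤ) : ℚ) := by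
    unfold Ec Dd
    simp only [WeierstrassCurve.Δ, WeierstrassCurve.b₂, WeierstrassCurve.b₄, WeierstrassCurve.b₆,
      WeierstrassCurve.b₈]
    push_cast
    ring
  have hD' : ((Dd a b : ℤ) : ℚ) ≠ 0 := by exact_mod_cast hD
  unfold jE
  rw [h1, h2]
  field_simp
  ring

theorem pow_dvd_root {p A : ℕ} (hp : p.Prime) (i j m : ℕ) (h : p ^ m ∣ A ^ i)
    (hij : i * (j - 1) < m) : p ^ j ∣ A := by
  by_cases hA : A = 0
  · rw [hA]; exact dvd_zero _
  · rw [hp.pow_dvd_iff_le_factorization (pow_ne_zero _ hA), Nat.factorization_pow] at h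
    rw [hp.pow_dvd_iff_le_factorization hA]
    have h1 : m ≤ i * A.factorization p := by simpa using h
    by_contra hcon
    have h2 : A.factorization p ≤ j - 1 := by omega
    have h3 : i * A.factorization p ≤ i * (j - 1) := Nat.mul_le_mul_left _ h2
    omega

theorem gcd_le (C₀ : ℝ) {a b : ℤ} (hmn : Mn a b)
    (h : ∀ p : ℕ, p.Prime → C₀ ≤ (p : ℝ) → (p : ℤ) ∣ a → ¬ (p : ℤ) ∣ b) :
    Nat.gcd (a.natAbs ^ 3) (b.natAbs ^ 2) ≤
      ∏ p ∈ (Finset.range ⌈C₀⌉₊).filter Nat.Prime, p ^ 10 := by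
  set g := Nat.gcd (a.natAbs ^ 3) (b.natAbs ^ 2) with hg
  have hg0 : g ≠ 0 := by
    intro h0
    rw [hg, Nat.gcd_eq_zero_iff] at h0
    have ha : a = 0 := Int.natAbs_eq_zero.1 (pow_eq_zero_iff (by norm_num) |>.1 h0.1)
    have hb : b = 0 := Int.natAbs_eq_zero.1 (pow_eq_zero_iff (by norm_num) |>.1 h0.2)
    apply hmn.1
    rw [ha, hb]
    rfl
  have hfac : ∀ p, g.factorization p ≤ 10 := by
    intro p
    by_contra hcon
    push Not at hcon
    by_cases hp : p.Prime
    · have h1 : p ^ 11 ∣ g := (hp.pow_dvd_iff_le_factorization hg0).2 hcon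
      have h2 : p ^ 4 ∣ a.natAbs := pow_dvd_root hp 3 4 11
        (h1.trans (Nat.gcd_dvd_left _ _)) (by norm_num)
      have h3 : p ^ 6 ∣ b.natAbs := pow_dvd_root hp 2 6 11
        (h1.trans (Nat.gcd_dvd_right _ _)) (by norm_num)
      apply hmn.2 p hp
      constructor
      · have := Int.natCast_dvd.2 h2
        exact_mod_cast this
      · have := Int.natCast_dvd.2 h3
        exact_mod_cast this
    · rw [Nat.factorization_eq_zero_of_not_prime _ hp] at hcon
      omega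
  have hsub : g.primeFactors ⊆ (Finset.range ⌈C₀⌉₊).filter Nat.Prime := by
    intro p hp
    have hpp := Nat.prime_of_mem_primeFactors hp
    have hpg := Nat.dvd_of_mem_primeFactors hp
    rw [Finset.mem_filter, Finset.mem_range]
    refine ⟨?_, hpp⟩
    by_contra hcon
    push Not at hcon
    have h1 : C₀ ≤ (p : ℝ) := (Nat.le_ceil C₀).trans (by exact_mod_cast hcon)
    have h2 : p ∣ a.natAbs := hpp.dvd_of_dvd_pow (hpg.trans (Nat.gcd_dvd_left _ _))
    have h3 : p ∣ b.natAbs := hpp.dvd_of_dvd_pow (hpg.trans (Nat.gcd_dvd_right _ _))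
    exact h p hpp h1 (Int.natCast_dvd.2 h2) (Int.natCast_dvd.2 h3)
  calc g = g.factorization.prod (fun p k => p ^ k) := (Nat.prod_factorization_pow_eq_self hg0).symm
    _ = ∏ p ∈ g.primeFactors, p ^ g.factorization p := rfl
    _ ≤ ∏ p ∈ g.primeFactors, p ^ 10 := by
        refine Finset.prod_le_prod' fun p hp => ?_
        exact Nat.pow_le_pow_right (Nat.prime_of_mem_primeFactors hp).pos (hfac p)
    _ ≤ _ := by
        refine Finset.prod_le_prod_of_subset_of_one_le' hsub fun p hp _ => ?_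
        exact Nat.one_le_pow _ _ (Finset.mem_filter.1 hp).2.pos

theorem denj : S_DENJ := by
  intro C₀
  set M : ℕ := ∏ p ∈ (Finset.range ⌈C₀⌉₊).filter Nat.Prime, p ^ 10 with hM
  refine ⟨186624 * (M + 1), by positivity, ?_⟩
  intro a b hmn _ h
  have hg := gcd_le C₀ hmn h
  rw [← hM] at hg
  have hj := jE_eq hmn.1
  set q := jE a b with hq
  have hD' : ((Dd a b : ℤ) : ℚ) ≠ 0 := by exact_mod_cast hmn.1
  have hden : (q.den : ℚ) ≠ 0 := by exact_mod_cast q.den_ne_zero
  have h1 : q.num * Dd a b = 6912 * a ^ 3 * q.den := by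
    have h2 : (q.num : ℚ) = q * q.den := (Rat.mul_den_eq_num q).symm
    have h3 : (q.num : ℚ) * (Dd a b : ℤ) = 6912 * (a : ℚ) ^ 3 * q.den := by
      rw [h2, hj]
      field_simp
    exact_mod_cast h3
  have hcop : IsCoprime q.num (q.den : ℤ) := by
    rw [Int.isCoprime_iff_gcd_eq_one]
    have := q.reduced
    rwa [Nat.Coprime, ← Int.natAbs_natCast q.den] at this
  have hdvd : (q.den : ℤ) ∣ Dd a b := by
    apply hcop.symm.dvd_of_dvd_mul_left
    rw [h1]
    exact Dvd.intro_left _ rfl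
  obtain ⟨e, he⟩ := hdvd
  have hden' : (q.den : ℤ) ≠ 0 := by exact_mod_cast q.den_ne_zero
  have h2 : q.num * e = 6912 * a ^ 3 := by
    apply mul_right_cancel₀ hden'
    rw [← h1, he]
    ring
  have e1 : e ∣ 186624 * a ^ 3 := ⟨27 * q.num, by linear_combination (-27) * h2⟩
  have e2 : e ∣ 186624 * b ^ 2 := by
    refine ⟨4 * q.num - 6912 * q.den, ?_⟩
    have h3 : 4 * a ^ 3 - 27 * b ^ 2 = q.den * e := he
    linear_combination (-4) * h2 + (-6912) * h3
  have e3 : e.natAbs ∣ 186624 * Nat.gcd (a.natAbs ^ 3) (b.natAbs ^ 2) := by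
    rw [← Nat.gcd_mul_left]
    apply Nat.dvd_gcd
    · have := Int.natAbs_dvd_natAbs.2 e1
      rwa [Int.natAbs_mul, Int.natAbs_pow] at this
    · have := Int.natAbs_dvd_natAbs.2 e2
      rwa [Int.natAbs_mul, Int.natAbs_pow] at this
  have hgpos : 0 < Nat.gcd (a.natAbs ^ 3) (b.natAbs ^ 2) := by
    rw [Nat.pos_iff_ne_zero]
    intro h0
    rw [Nat.gcd_eq_zero_iff] at h0
    have ha : a = 0 := Int.natAbs_eq_zero.1 (pow_eq_zero_iff (by norm_num) |>.1 h0.1)
    have hb : b = 0 := Int.natAbs_eq_zero.1 (pow_eq_zero_iff (by norm_num) |>.1 h0.2)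
    apply hmn.1
    rw [ha, hb]
    rfl
  have e4 : e.natAbs ≤ 186624 * (M + 1) := by
    calc e.natAbs ≤ _ := Nat.le_of_dvd (by positivity) e3
      _ ≤ 186624 * M := Nat.mul_le_mul_left _ hg
      _ ≤ _ := by omega
  have e5 : |(e : ℝ)| ≤ 186624 * (M + 1) := by
    rw [← Int.cast_abs, ← Nat.cast_natAbs]
    exact_mod_cast e4
  rw [he]
  push_cast
  rw [abs_mul, abs_of_nonneg (by positivity : (0 : ℝ) ≤ (q.den : ℝ)), mul_comm]
  exact mul_le_mul_of_nonneg_right e5 (by positivity)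

end Pool.Agent.N40.FH
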