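import Pool.Agent.N906.FH.Stm
import Pool.Agent.N157.SZ_GAIN

/-!
# Project FH (helper906), MD (helper40): the minimal discriminant against `D`
-/

set_option autoImplicit false

namespace Pool.Agent.N40.FH

open Pool.Agent.N906.SZ Pool.Agent.N906.FH

/-- the integral model -/
def Ez (a b : ℤ) : WeierstrassCurve ℤ := ⟨0, 0, 0, -a, -b⟩

theorem Ez_map (a b : ℤ) : (1 : WeierstrassCurve.VariableChange ℚ) • Ec a b =
    (Ez a b).map (Int.castRingHom ℚ) := by
  rw [one_smul]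
  unfold Ec Ez
  simp [WeierstrassCurve.map]

theorem Ez_disc (a b : ℤ) : (Ez a b).Δ = 16 * Dd a b := by
  unfold Ez Dd
  simp only [WeierstrassCurve.Δ, WeierstrassCurve.b₂, WeierstrassCurve.b₄, WeierstrassCurve.b₆,
    WeierstrassCurve.b₈]
  ring

theorem minDisc_le (a b : ℤ) : minDisc (Ec a b) ≤ 16 * (Dd a b).natAbs := by
  refine Nat.sInf_le ⟨Ez a b, 1, Ez_map a b, ?_⟩
  rw [Ez_disc, Int.natAbs_mul]
  rfl

theorem c4_Ec (a b : ℤ) : (Ec a b).c₄ = 48 * a := by
  unfold Ec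
  simp only [WeierstrassCurve.c₄, WeierstrassCurve.b₂, WeierstrassCurve.b₄]
  ring

theorem c6_Ec (a b : ℤ) : (Ec a b).c₆ = 864 * b := by
  unfold Ec
  simp only [WeierstrassCurve.c₆, WeierstrassCurve.b₂, WeierstrassCurve.b₄, WeierstrassCurve.b₆]
  ring

theorem minDisc_ge {a b : ℤ} (hmin : Pool.Agent.N157.SZ.IsMinimal' a b) :
    (Dd a b).natAbs ≤ 136048896 * minDisc (Ec a b) := by
  have hne : {n : ℕ | ∃ (V : WeierstrassCurve ℤ) (C : WeierstrassCurve.VariableChange ℚ),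
      C • Ec a b = V.map (Int.castRingHom ℚ) ∧ n = V.Δ.natAbs}.Nonempty :=
    ⟨_, Ez a b, 1, Ez_map a b, rfl⟩
  obtain ⟨V, C, hC, hn⟩ := Nat.sInf_mem hne
  have hn' : minDisc (Ec a b) = V.Δ.natAbs := hn
  rw [hn']
  have hu : (C.u : ℚ) ≠ 0 := C.u.ne_zero
  have h4 : ((V.c₄ : ℤ) : ℚ) = ((C.u : ℚ)⁻¹) ^ 4 * (48 * a) := by
    have h1 := congrArg WeierstrassCurve.c₄ hC
    rw [WeierstrassCurve.variableChange_c₄, WeierstrassCurve.map_c₄, c4_Ec] at h1
    rw [← Units.val_inv_eq_inv_val]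
    exact h1.symm
  have h6 : ((V.c₆ : ℤ) : ℚ) = ((C.u : ℚ)⁻¹) ^ 6 * (864 * b) := by
    have h1 := congrArg WeierstrassCurve.c₆ hC
    rw [WeierstrassCurve.variableChange_c₆, WeierstrassCurve.map_c₆, c6_Ec] at h1
    rw [← Units.val_inv_eq_inv_val]
    exact h1.symm
  have h7 := hmin.2 (6 / (C.u : ℚ)) (27 * V.c₄) (54 * V.c₆) (div_ne_zero (by norm_num) hu) (by
    push_cast
    rw [h4]
    field_simp
    ring) (by
    push_cast
    rw [h6]
    field_simp
    ring)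
  have h8 : Dd (27 * V.c₄) (54 * V.c₆) = 136048896 * V.Δ := by
    have h9 := V.c_relation
    unfold Dd
    linear_combination (-78732) * h9
  rw [h8] at h7
  have h10 : ((Dd a b).natAbs : ℤ) ≤ 136048896 * (V.Δ.natAbs : ℤ) := by
    rw [Int.natCast_natAbs, Int.natCast_natAbs]
    refine h7.trans (le_of_eq ?_)
    rw [abs_mul]
    norm_num
  exact_mod_cast h10

theorem md : S_MD := by
  refine ⟨Real.log 136048896, ?_⟩
  intro a b hmn
  have hge := minDisc_ge ((Pool.Agent.N157.SZ.isMinimal_iff a b).2 hmn)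
  have hle := minDisc_le a b
  have hD : 0 < (Dd a b).natAbs := Int.natAbs_pos.2 hmn.1
  have hm : 0 < minDisc (Ec a b) := by
    rcases Nat.eq_zero_or_pos (minDisc (Ec a b)) with h | h
    · rw [h, mul_zero] at hge
      omega
    · exact h
  have hDr : |((Dd a b : ℤ) : ℝ)| = ((Dd a b).natAbs : ℝ) := by
    rw [Nat.cast_natAbs, Int.cast_abs]
  have hD' : (0 : ℝ) < ((Dd a b).natAbs : ℝ) := by exact_mod_cast hD
  have hm' : (0 : ℝ) < (minDisc (Ec a b) : ℝ) := by exact_mod_cast hm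
  rw [hDr]
  constructor
  · have h1 : ((Dd a b).natAbs : ℝ) ≤ 136048896 * (minDisc (Ec a b) : ℝ) := by exact_mod_cast hge
    have h2 := Real.log_le_log hD' h1
    rw [Real.log_mul (by norm_num) hm'.ne'] at h2
    linarith
  · have h1 : (minDisc (Ec a b) : ℝ) ≤ 16 * ((Dd a b).natAbs : ℝ) := by exact_mod_cast hle
    have h2 := Real.log_le_log hm' h1
    rw [Real.log_mul (by norm_num) hD'.ne'] at h2
    have h3 : Real.log 16 ≤ Real.log 136048896 := Real.log_le_log (by norm_num) (by norm_num)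
    linarith

end Pool.Agent.N40.FH
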