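import Pool.Agent.N40.GXA2

set_option autoImplicit false

/-!
# Project GX, part A1: the contour argument (helper40)
-/

namespace Pool.Agent.N40.GX

open Complex MeasureTheory Filter Topology
open Pool.Agent.N964.GX
open Pool.Agent.W354 (LogC)
open Y767.WH (GoodH)
open Pool.Agent.N221.MXA (cosh_sub_one_ge)

/-! ### the kernel -/

lemma Dk_neg (l s : ℝ) (w : ℂ) : Dk l s (-w) = Dk l s w := by
  unfold Dk
  rw [neg_sq, mul_neg, Complex.cosh_neg]

lemma Dk_conj (l s : ℝ) (w : ℂ) : (starRingEnd ℂ) (Dk l s w) = Dk l s ((starRingEnd ℂ) w) := by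
  unfold Dk
  rw [map_mul, map_div₀, map_div₀, map_mul, map_sub, map_sub, map_pow, map_pow, ← Complex.cosh_conj,
    map_mul, map_one, Complex.conj_ofReal, Complex.conj_ofReal, Complex.conj_ofReal, map_ofNat]

lemma norm_cosh_le (w : ℂ) : ‖Complex.cosh w‖ ≤ Real.cosh w.re := by
  unfold Complex.cosh
  rw [norm_div, Complex.norm_ofNat, Real.cosh_eq]
  apply div_le_div_of_nonneg_right _ (by norm_num)
  refine (norm_add_le _ _).trans ?_
  rw [Complex.norm_exp, Complex.norm_exp, Complex.neg_re]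

lemma den_re (s : ℝ) (w : ℂ) : ((s : ℂ) ^ 2 - w ^ 2).re = s ^ 2 - w.re ^ 2 + w.im ^ 2 := by
  simp [sq]
  ring

/-- a bound for the kernel -/
lemma Dk_le {l s r b : ℝ} (hl : 0 < l) (hs : 0 < s) {w : ℂ} (hr : |w.re| ≤ r)
    (hb : 0 < b) (hbw : b ≤ s ^ 2 - w.re ^ 2 + w.im ^ 2) :
    ‖Dk l s w‖ ≤ 2 * s / b * ((Real.cosh (l * r) + 1) / (Real.cosh (l * s) - 1)) := by
  have hc := cosh_pos' hl hs
  unfold Dk
  rw [norm_mul, norm_div, norm_div, Complex.norm_real, Real.norm_of_nonneg hc.le, norm_mul,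
    Complex.norm_ofNat, Complex.norm_real, Real.norm_of_nonneg hs.le]
  have h1 : b ≤ ‖(s : ℂ) ^ 2 - w ^ 2‖ := by
    refine hbw.trans ?_
    rw [← den_re]
    exact Complex.re_le_norm _
  have h2 : ‖Complex.cosh (l * w) - 1‖ ≤ Real.cosh (l * r) + 1 := by
    refine (norm_sub_le _ _).trans ?_
    rw [norm_one]
    have h3 := norm_cosh_le ((l : ℂ) * w)
    rw [Complex.re_ofReal_mul] at h3
    have h4 : Real.cosh (l * w.re) ≤ Real.cosh (l * r) := by
      rw [Real.cosh_le_cosh, abs_mul, abs_mul, abs_of_pos hl]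
      exact mul_le_mul_of_nonneg_left (hr.trans (le_abs_self r)) hl.le
    linarith
  exact mul_le_mul (div_le_div_of_nonneg_left (by positivity) hb h1)
    (div_le_div_of_nonneg_right h2 hc.le) (by positivity) (by positivity)

lemma Dk_cont {l s : ℝ} {w : ℂ} (hw : 0 < s ^ 2 - w.re ^ 2 + w.im ^ 2) :
    ContinuousAt (Dk l s) w := by
  unfold Dk
  have h1 : (s : ℂ) ^ 2 - w ^ 2 ≠ 0 := by
    intro h
    have := congrArg Complex.re h
    rw [den_re, Complex.zero_re] at this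
    linarith
  refine ContinuousAt.mul (ContinuousAt.div continuousAt_const ?_ h1) ?_
  · fun_prop
  · apply ContinuousAt.div_const
    exact (Complex.continuous_cosh.continuousAt.comp (by fun_prop)).sub continuousAt_const

/-- the numerator at the pole -/
noncomputable def hh (l s : ℝ) (q : ℂ) (z : ℂ) : ℂ :=
  -(2 * s * ((Complex.cosh (l * (z - q + s)) - 1) / ((Real.cosh (l * s) - 1 : ℝ) : ℂ)) /
    (z - q + s + s))

lemma hh_eq (l s : ℝ) (q z : ℂ) : hh l s q z / (z - q) = Dk l s (z - q + s) := by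
  unfold hh Dk
  have h1 : (s : ℂ) ^ 2 - (z - q + s) ^ 2 = -((z - q) * (z - q + s + s)) := by ring
  rw [h1]
  simp only [div_eq_mul_inv, inv_neg, mul_inv]
  ring

lemma hh_q {l s : ℝ} (hl : 0 < l) (hs : 0 < s) (q : ℂ) : hh l s q q = -1 := by
  unfold hh
  have hc := cosh_pos' hl hs
  have h1 : ((Real.cosh (l * s) - 1 : ℝ) : ℂ) ≠ 0 := by
    exact_mod_cast hc.ne'
  have h2 : (s : ℂ) ≠ 0 := by exact_mod_cast hs.ne'
  have h3 : Complex.cosh (l * (q - q + s)) - 1 = ((Real.cosh (l * s) - 1 : ℝ) : ℂ) := by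
    rw [sub_self, zero_add]
    push_cast
    rfl
  rw [h3, div_self h1]
  have h4 : q - q + (s:ℂ) + s = 2 * s := by ring
  rw [h4, mul_one, div_self (mul_ne_zero two_ne_zero h2)]

lemma hh_an {l s : ℝ} {q z : ℂ} (hz : q.re - 2 * s < z.re) : AnalyticAt ℂ (hh l s q) z := by
  have hopen : IsOpen {z : ℂ | q.re - 2 * s < z.re} := isOpen_lt continuous_const Complex.continuous_re
  refine DifferentiableOn.analyticAt (s := {z : ℂ | q.re - 2 * s < z.re}) ?_ (hopen.mem_nhds hz)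
  intro z hz
  apply DifferentiableAt.differentiableWithinAt
  unfold hh
  have h1 : z - q + s + s ≠ 0 := by
    intro h
    have := congrArg Complex.re h
    simp only [Complex.add_re, Complex.sub_re, Complex.ofReal_re, Complex.zero_re] at this
    have h2 : q.re - 2 * s < z.re := hz
    linarith
  have n1 : DifferentiableAt ℂ (fun z : ℂ => 2 * (s:ℂ) * ((Complex.cosh (l * (z - q + s)) - 1) /
      ((Real.cosh (l * s) - 1 : ℝ) : ℂ))) z := by
    refine DifferentiableAt.const_mul ?_ _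
    refine DifferentiableAt.div_const ?_ _
    have n3 : DifferentiableAt ℂ (fun z : ℂ => (l:ℂ) * (z - q + s)) z := by fun_prop
    exact n3.ccosh.sub_const 1
  have n2 : DifferentiableAt ℂ (fun z : ℂ => z - q + s + s) z := by fun_prop
  exact (n1.div n2 h1).neg

/-! ### the zeros -/

section
variable {k : ℕ} {A : ℝ} {lc : ℝ → ℝ} {F : ℂ → ℂ} {a : ℕ → ℂ}

lemma zero_re (H : LR k A lc F a) {z : ℂ} (hz : 1 ≤ z.im) (h0 : F z = 0) : z.re = 1 / 2 := by
  rcases lt_trichotomy z.re (1 / 2) with h | h | h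
  · exfalso
    by_cases h1 : z.re ≤ 0
    · exact H.good.nzl z h1 hz h0
    · push Not at h1
      have h2 := H.good.symm z h1 (by linarith) hz
      have h3 : F (1 - (starRingEnd ℂ) z) ≠ 0 := by
        apply H.rh
        · simp
          linarith
        · simpa using hz
      have han1 : AnalyticAt ℂ F (1 - (starRingEnd ℂ) z) := by
        apply H.good.an
        simp
        linarith
      have han2 : AnalyticAt ℂ F z := H.good.an z (by linarith)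
      rw [han1.analyticOrderAt_eq_zero.2 h3] at h2
      exact (han2.analyticOrderAt_eq_zero.1 h2.symm) h0
  · exact h
  · exact absurd h0 (H.rh z h hz)

/-- one contour -/
lemma resd (hres : S_res) (H : LR k A lc F a) {t s l V1 V2 c0 : ℝ} (hs : 0 < s) (hs1 : s ≤ 1)
    (hl : 0 < l) (hV1 : 1 ≤ V1) (hV1t : V1 < t) (hV2 : t < V2)
    (g1 : ∀ x ∈ Set.Icc (-3 / 4 : ℝ) (7 / 4), F ⟨x, V1⟩ ≠ 0)
    (g2 : ∀ x ∈ Set.Icc (-3 / 4 : ℝ) (7 / 4), F ⟨x, V2⟩ ≠ 0)
    (hc1 : 1 / 2 - s < c0) (hc2 : c0 < 1 / 2 + s) (hc3 : c0 ≠ 1 / 2) :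
    ∃ S : ℂ, S.re ≤ 0 ∧ H370.RI c0 (7 / 4) V1 V2 (fun z => deriv F z / F z *
      Dk l s (z - (1 / 2 + t * I))) = 2 * Real.pi * I *
        (-(deriv F (1 / 2 + s + t * I) / F (1 / 2 + s + t * I)) + S) := by
  obtain ⟨q, hq⟩ : ∃ q : ℂ, q = 1 / 2 + s + t * I := ⟨_, rfl⟩
  have hqre : q.re = 1 / 2 + s := by
    rw [hq]; simp
  have hqim : q.im = t := by
    rw [hq]; simp
  have him : ∀ z ∈ Set.Icc c0 (7 / 4) ×ℂ Set.Icc V1 V2, 1 ≤ z.im := fun z hz => hV1.trans hz.2.1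
  have hFq : F q ≠ 0 := by
    apply H.rh
    · rw [hqre]; linarith
    · rw [hqim]; linarith
  have hopen : ∀ z ∈ Set.Icc c0 (7 / 4) ×ℂ Set.Icc V1 V2, F z = 0 →
      z ∈ Set.Ioo c0 (7 / 4) ×ℂ Set.Ioo V1 V2 := by
    intro z hz h0
    have hr := zero_re H (him z hz) h0
    have hz1 : z = ⟨1 / 2, z.im⟩ := by
      apply Complex.ext
      · exact hr
      · rfl
    refine ⟨⟨?_, ?_⟩, ⟨?_, ?_⟩⟩
    · refine lt_of_le_of_ne hz.1.1 fun h => hc3 ?_
      rw [h, hr]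
    · show z.re < 7 / 4
      rw [hr]; norm_num
    · refine lt_of_le_of_ne hz.2.1 fun h => ?_
      rw [hz1, ← h] at h0
      exact g1 (1 / 2) ⟨by norm_num, by norm_num⟩ h0
    · refine lt_of_le_of_ne hz.2.2 fun h => ?_
      rw [hz1, h] at h0
      exact g2 (1 / 2) ⟨by norm_num, by norm_num⟩ h0
  obtain ⟨hfin, hR⟩ := hres F (hh l s q) c0 (7 / 4) V1 V2 q (by linarith) (by linarith)
    (fun z hz => H.good.an z (by linarith [him z hz]))
    (fun z hz => hh_an (by rw [hqre]; have : c0 ≤ z.re := hz.1.1; linarith))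
    hopen
    ⟨⟨by show c0 < q.re; rw [hqre]; exact hc2, by show q.re < 7 / 4; rw [hqre]; linarith⟩,
      ⟨by show V1 < q.im; rw [hqim]; exact hV1t, by show q.im < V2; rw [hqim]; exact hV2⟩⟩ hFq
  have hfun : (fun z => deriv F z / F z * (hh l s q z / (z - q))) = fun z => deriv F z / F z *
      Dk l s (z - (1 / 2 + t * I)) := by
    funext z
    rw [hh_eq]
    congr 2
    rw [hq]
    ring
  rw [hfun, hh_q hl hs] at hR
  refine ⟨∑ᶠ s_1 ∈ {s_1 | s_1 ∈ Set.Ioo c0 (7 / 4) ×ℂ Set.Ioo V1 V2 ∧ F s_1 = 0},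
    (H370.mult F s_1 : ℂ) * (hh l s q s_1 / (s_1 - q)), ?_, ?_⟩
  · rw [finsum_mem_eq_finite_toFinset_sum _ hfin, Complex.re_sum]
    apply Finset.sum_nonpos
    intro z hz
    rw [Set.Finite.mem_toFinset] at hz
    have hr := zero_re H (by have := hz.1.2.1; have h2 : V1 < z.im := this; linarith) hz.2
    have e1 : z - q + s = ((z.im - t : ℝ) : ℂ) * I := by
      apply Complex.ext
      · simp [hr, hqre]
      · simp [hqim]
    rw [hh_eq, e1, Dk_im]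
    have e2 : ((H370.mult F z : ℕ) : ℂ) = ((H370.mult F z : ℝ) : ℂ) := by push_cast; rfl
    rw [e2, ← Complex.ofReal_mul, Complex.ofReal_re]
    apply mul_nonpos_of_nonneg_of_nonpos (Nat.cast_nonneg _)
    apply mul_nonpos_of_nonneg_of_nonpos (by positivity)
    apply div_nonpos_of_nonpos_of_nonneg _ (cosh_pos' hl hs).le
    linarith [Real.cos_le_one (l * (z.im - t))]
  · rw [hR, ← hq]
    ring

lemma logder_cont (H : LR k A lc F a) {z : ℂ} (hz : 1 ≤ z.im) (h : F z ≠ 0) :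
    ContinuousAt (fun z => deriv F z / F z) z := by
  have han : AnalyticAt ℂ F z := H.good.an z (by linarith)
  exact (han.deriv.continuousAt).div han.continuousAt h

lemma Dk_ii (H : LR k A lc F a) {t s l V1 V2 η : ℝ} (hs : 0 < s) (hV1 : 1 ≤ V1) (hV12 : V1 ≤ V2)
    (hη : |η| ≤ s / 2) : IntervalIntegrable (fun v => (k * lc v + A) *
      ‖Dk l s ((-η : ℝ) + ((v - t : ℝ) : ℂ) * I)‖) volume V1 V2 := by
  have m1 : IntervalIntegrable lc volume V1 V2 := by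
    apply MonotoneOn.intervalIntegrable
    rw [Set.uIcc_of_le hV12]
    intro x hx y hy hxy
    exact H.hlc.mono x y (hV1.trans hx.1) hxy
  refine IntervalIntegrable.mul_continuousOn ((m1.const_mul _).add intervalIntegrable_const) ?_
  apply Continuous.continuousOn
  apply Continuous.norm
  rw [continuous_iff_continuousAt]
  intro v
  refine ContinuousAt.comp (f := fun v : ℝ => ((-η : ℝ) : ℂ) + ((v - t : ℝ) : ℂ) * I)
    (g := Dk l s) (Dk_cont ?_) (by fun_prop)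
  have e1 : (((-η : ℝ) : ℂ) + ((v - t : ℝ) : ℂ) * I).re = -η := by simp
  rw [e1]
  have h4 := sq_nonneg ((((-η : ℝ) : ℂ) + ((v - t : ℝ) : ℂ) * I).im)
  have h5 : (-η) ^ 2 ≤ (s / 2) ^ 2 := by
    rw [neg_sq, ← sq_abs η]
    exact pow_le_pow_left₀ (abs_nonneg _) hη 2
  nlinarith

/-- the inequality with the contour at distance `η` -/
lemma core (hres : S_res) (H : LR k A lc F a) {t s l V1 V2 η : ℝ} (hs : 0 < s) (hs1 : s ≤ 1)
    (hl : 0 < l) (hV1 : 1 ≤ V1) (hV1t : V1 < t) (hV2 : t < V2)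
    (g1 : ∀ x ∈ Set.Icc (-3 / 4 : ℝ) (7 / 4), F ⟨x, V1⟩ ≠ 0)
    (g2 : ∀ x ∈ Set.Icc (-3 / 4 : ℝ) (7 / 4), F ⟨x, V2⟩ ≠ 0)
    (hη : 0 < η) (hη2 : η ≤ s / 2) {K : ℝ}
    (hK : ∀ c0 : ℝ, 0 ≤ c0 → c0 ≤ 1 → ∀ V : ℝ, (V = V1 ∨ V = V2) →
      ‖∫ x in c0..(7 / 4), deriv F ⟨x, V⟩ / F ⟨x, V⟩ * Dk l s (⟨x, V⟩ - (1 / 2 + t * I))‖ ≤ K) :
    2 * (deriv F (1 / 2 + s + t * I) / F (1 / 2 + s + t * I)).re ≤
    1 / (2 * Real.pi) * (∫ v in V1..V2, (k * lc v + A) * ‖Dk l s ((-η : ℝ) + ((v - t : ℝ) : ℂ) * I)‖)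
    - 1 / Real.pi * (∫ v in V1..V2, deriv F (7 / 4 + v * I) / F (7 / 4 + v * I) *
        Dk l s (5 / 4 + ((v - t : ℝ) : ℂ) * I)).re + 1 / (2 * Real.pi) * (4 * K) := by
  obtain ⟨f, hf⟩ : ∃ f : ℂ → ℂ, f = fun z => deriv F z / F z * Dk l s (z - (1 / 2 + t * I)) :=
    ⟨_, rfl⟩
  obtain ⟨S1, hS1, hR1⟩ := resd hres H (c0 := 1 / 2 - η) hs hs1 hl hV1 hV1t hV2 g1 g2
    (by linarith) (by linarith) (by linarith)
  obtain ⟨S2, hS2, hR2⟩ := resd hres H (c0 := 1 / 2 + η) hs hs1 hl hV1 hV1t hV2 g1 g2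
    (by linarith) (by linarith) (by linarith)
  rw [← hf] at hR1 hR2
  obtain ⟨X, hX⟩ : ∃ X : ℂ, X = deriv F (1 / 2 + s + t * I) / F (1 / 2 + s + t * I) := ⟨_, rfl⟩
  rw [← hX] at hR1 hR2 ⊢
  have hV12 : V1 ≤ V2 := by linarith
  unfold H370.RI at hR1 hR2
  obtain ⟨B1, hB1⟩ : ∃ B1 : ℂ, B1 = ∫ x in (1 / 2 - η)..(7 / 4), f ⟨x, V1⟩ := ⟨_, rfl⟩
  obtain ⟨T1, hT1⟩ : ∃ T1 : ℂ, T1 = ∫ x in (1 / 2 - η)..(7 / 4), f ⟨x, V2⟩ := ⟨_, rfl⟩
  obtain ⟨B2, hB2⟩ : ∃ B2 : ℂ, B2 = ∫ x in (1 / 2 + η)..(7 / 4), f ⟨x, V1⟩ := ⟨_, rfl⟩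
  obtain ⟨T2, hT2⟩ : ∃ T2 : ℂ, T2 = ∫ x in (1 / 2 + η)..(7 / 4), f ⟨x, V2⟩ := ⟨_, rfl⟩
  obtain ⟨Rt, hRt⟩ : ∃ Rt : ℂ, Rt = ∫ y in V1..V2, f ⟨7 / 4, y⟩ := ⟨_, rfl⟩
  obtain ⟨L1, hL1⟩ : ∃ L1 : ℂ, L1 = ∫ y in V1..V2, f ⟨1 / 2 - η, y⟩ := ⟨_, rfl⟩
  obtain ⟨L2, hL2⟩ : ∃ L2 : ℂ, L2 = ∫ y in V1..V2, f ⟨1 / 2 + η, y⟩ := ⟨_, rfl⟩
  rw [← hB1, ← hT1, ← hRt, ← hL1] at hR1
  rw [← hB2, ← hT2, ← hRt, ← hL2] at hR2
  have hpi := Real.pi_pos
  have r1 := congrArg Complex.im hR1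
  have r2 := congrArg Complex.im hR2
  simp only [Complex.add_im, Complex.sub_im, Complex.mul_im, Complex.I_re, Complex.I_im, zero_mul,
    one_mul, Complex.mul_re, Complex.re_ofNat, Complex.im_ofNat, Complex.ofReal_re,
    Complex.ofReal_im, mul_zero, mul_one, add_zero, zero_add, sub_zero, Complex.add_re,
    Complex.neg_re, Complex.neg_im, sub_self] at r1 r2
  -- horizontal
  have kB1 : |B1.im| ≤ K := (Complex.abs_im_le_norm _).trans (by
    rw [hB1, hf]; exact hK _ (by linarith) (by linarith) V1 (Or.inl rfl))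
  have kT1 : |T1.im| ≤ K := (Complex.abs_im_le_norm _).trans (by
    rw [hT1, hf]; exact hK _ (by linarith) (by linarith) V2 (Or.inr rfl))
  have kB2 : |B2.im| ≤ K := (Complex.abs_im_le_norm _).trans (by
    rw [hB2, hf]; exact hK _ (by linarith) (by linarith) V1 (Or.inl rfl))
  have kT2 : |T2.im| ≤ K := (Complex.abs_im_le_norm _).trans (by
    rw [hT2, hf]; exact hK _ (by linarith) (by linarith) V2 (Or.inr rfl))
  -- the right edge
  have eR : ∫ v in V1..V2, deriv F (7 / 4 + v * I) / F (7 / 4 + v * I) *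
        Dk l s (5 / 4 + ((v - t : ℝ) : ℂ) * I) = Rt := by
    rw [hRt, hf]
    refine intervalIntegral.integral_congr fun v _ => ?_
    simp only
    have e1 : (⟨7 / 4, v⟩ : ℂ) = 7 / 4 + v * I := by
      apply Complex.ext <;> simp
    rw [e1]
    congr 2
    push_cast
    ring
  rw [eR]
  -- the left edges
  have hz1 : ∀ v ∈ Set.Icc V1 V2, F ⟨1 / 2 - η, v⟩ ≠ 0 := by
    intro v hv h0
    have := zero_re H (z := ⟨1 / 2 - η, v⟩) (hV1.trans hv.1) h0
    simp only at this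
    linarith
  have hz2 : ∀ v ∈ Set.Icc V1 V2, F ⟨1 / 2 + η, v⟩ ≠ 0 := by
    intro v hv h0
    have := zero_re H (z := ⟨1 / 2 + η, v⟩) (hV1.trans hv.1) h0
    simp only at this
    linarith
  have hline : ∀ x : ℝ, Continuous fun v : ℝ => (⟨x, v⟩ : ℂ) := by
    intro x
    have e : (fun v : ℝ => (⟨x, v⟩ : ℂ)) = fun v : ℝ => (x : ℂ) + v * I := by
      funext v
      apply Complex.ext <;> simp
    rw [e]
    fun_prop
  have hfc : ∀ x : ℝ, |x - 1 / 2| ≤ s / 2 → (∀ v ∈ Set.Icc V1 V2, F ⟨x, v⟩ ≠ 0) →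
      ContinuousOn (fun v : ℝ => f ⟨x, v⟩) (Set.Icc V1 V2) := by
    intro x hx h v hv
    apply ContinuousAt.continuousWithinAt
    rw [hf]
    refine ContinuousAt.mul ?_ ?_
    · exact ContinuousAt.comp (f := fun v : ℝ => (⟨x, v⟩ : ℂ)) (g := fun z => deriv F z / F z)
        (logder_cont H (z := ⟨x, v⟩) (hV1.trans hv.1) (h v hv)) (hline x).continuousAt
    · refine ContinuousAt.comp (f := fun v : ℝ => (⟨x, v⟩ : ℂ) - (1 / 2 + t * I)) (g := Dk l s)
        (Dk_cont ?_) ((hline x).sub continuous_const).continuousAt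
      have e1 : ((⟨x, v⟩ : ℂ) - (1 / 2 + t * I)).re = x - 1 / 2 := by simp
      rw [e1]
      have h3 : (x - 1 / 2) ^ 2 ≤ (s / 2) ^ 2 := by
        rw [← sq_abs (x - 1 / 2)]
        exact pow_le_pow_left₀ (abs_nonneg _) hx 2
      have h4 := sq_nonneg (((⟨x, v⟩ : ℂ) - (1 / 2 + t * I)).im)
      nlinarith
  have c1 := hfc (1 / 2 - η) (by rw [show 1 / 2 - η - 1 / 2 = -η by ring, abs_neg, abs_of_pos hη]; exact hη2) hz1
  have c2 := hfc (1 / 2 + η) (by rw [show 1 / 2 + η - 1 / 2 = η by ring, abs_of_pos hη]; exact hη2) hz2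
  have i1 : IntervalIntegrable (fun v : ℝ => f ⟨1 / 2 - η, v⟩) volume V1 V2 := by
    apply ContinuousOn.intervalIntegrable
    rw [Set.uIcc_of_le hV12]
    exact c1
  have i2 : IntervalIntegrable (fun v : ℝ => (starRingEnd ℂ) (f ⟨1 / 2 + η, v⟩)) volume V1 V2 := by
    apply ContinuousOn.intervalIntegrable
    rw [Set.uIcc_of_le hV12]
    exact Complex.continuous_conj.comp_continuousOn c2
  have eL : L1 + (starRingEnd ℂ) L2 = ∫ v in V1..V2,
      (f ⟨1 / 2 - η, v⟩ + (starRingEnd ℂ) (f ⟨1 / 2 + η, v⟩)) := by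
    rw [intervalIntegral.integral_add i1 i2, hL1, hL2]
    congr 1
    rw [intervalIntegral.integral_of_le hV12, intervalIntegral.integral_of_le hV12, integral_conj]
  have hw : ∀ v : ℝ, ((⟨1 / 2 - η, v⟩ : ℂ) - (1 / 2 + t * I)) =
      ((-η : ℝ) : ℂ) + ((v - t : ℝ) : ℂ) * I := by
    intro v
    apply Complex.ext <;> simp
  have hw2 : ∀ v : ℝ, (starRingEnd ℂ) ((⟨1 / 2 + η, v⟩ : ℂ) - (1 / 2 + t * I)) =
      -(((-η : ℝ) : ℂ) + ((v - t : ℝ) : ℂ) * I) := by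
    intro v
    apply Complex.ext
    · simp
    · simp
      ring
  have hnonneg : ∀ v ∈ Set.Icc V1 V2, 0 ≤ lc v := fun v hv =>
    (Real.log_nonneg (hV1.trans hv.1)).trans (H.hlc.low v (hV1.trans hv.1))
  have hpt : ∀ v ∈ Set.Icc V1 V2, ‖f ⟨1 / 2 - η, v⟩ + (starRingEnd ℂ) (f ⟨1 / 2 + η, v⟩)‖ ≤
      (k * lc v + A) * ‖Dk l s ((-η : ℝ) + ((v - t : ℝ) : ℂ) * I)‖ := by
    intro v hv
    rw [hf]
    simp only
    rw [map_mul, Dk_conj, hw2, Dk_neg, hw, ← add_mul, norm_mul]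
    refine mul_le_mul_of_nonneg_right ?_ (norm_nonneg _)
    have h1 := H.good.left ⟨1 / 2 - η, v⟩ (by simp only; linarith) (by simp only; linarith)
      (hV1.trans hv.1) (hz1 v hv)
    have e1 : (1 : ℂ) - (starRingEnd ℂ) ⟨1 / 2 - η, v⟩ = ⟨1 / 2 + η, v⟩ := by
      apply Complex.ext
      · simp; ring
      · simp
    rw [e1] at h1
    have h2 : deriv F ⟨1 / 2 - η, v⟩ / F ⟨1 / 2 - η, v⟩ +
        (starRingEnd ℂ) (deriv F ⟨1 / 2 + η, v⟩ / F ⟨1 / 2 + η, v⟩) =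
        (deriv F ⟨1 / 2 - η, v⟩ / F ⟨1 / 2 - η, v⟩ + ((k * lc v : ℝ) : ℂ) +
        (starRingEnd ℂ) (deriv F ⟨1 / 2 + η, v⟩ / F ⟨1 / 2 + η, v⟩)) - ((k * lc v : ℝ) : ℂ) := by
      ring
    rw [h2]
    refine (norm_sub_le _ _).trans ?_
    rw [Complex.norm_real, Real.norm_of_nonneg (mul_nonneg (Nat.cast_nonneg k) (hnonneg v hv))]
    simp only at h1
    linarith
  have ig := Dk_ii H hs hV1 hV12 (η := η) (t := t) (l := l) (by rw [abs_of_pos hη]; exact hη2)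
  have hLL : ‖L1 + (starRingEnd ℂ) L2‖ ≤ ∫ v in V1..V2,
      (k * lc v + A) * ‖Dk l s ((-η : ℝ) + ((v - t : ℝ) : ℂ) * I)‖ := by
    rw [eL]
    refine intervalIntegral.norm_integral_le_of_norm_le hV12 ?_ ig
    exact Eventually.of_forall fun v hv => hpt v ⟨hv.1.le, hv.2⟩
  have hre : L1.re + L2.re ≤ ‖L1 + (starRingEnd ℂ) L2‖ := by
    have := Complex.re_le_norm (L1 + (starRingEnd ℂ) L2)
    simpa using this
  have q1 := abs_le.1 kB1
  have q2 := abs_le.1 kT1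
  have q3 := abs_le.1 kB2
  have q4 := abs_le.1 kT2
  obtain ⟨G, hG⟩ : ∃ G : ℝ, G = ∫ v in V1..V2,
      (k * lc v + A) * ‖Dk l s ((-η : ℝ) + ((v - t : ℝ) : ℂ) * I)‖ := ⟨_, rfl⟩
  rw [← hG] at hLL ⊢
  have fin : 2 * Real.pi * (2 * X.re) ≤ G - 2 * Rt.re + 4 * K := by nlinarith
  have e5 : 1 / (2 * Real.pi) * G - 1 / Real.pi * Rt.re + 1 / (2 * Real.pi) * (4 * K) =
      (G - 2 * Rt.re + 4 * K) / (2 * Real.pi) := by
    field_simp
  rw [e5, le_div_iff₀ (by positivity)]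
  linarith

lemma log_sq_le {x : ℝ} (hx : 1 ≤ x) : Real.log x ^ 2 ≤ 4 * x := by
  have h0 : 0 < x := by linarith
  have h1 : Real.log x = 2 * Real.log (Real.sqrt x) := by
    rw [Real.log_sqrt h0.le]
    ring
  have h2 : Real.log (Real.sqrt x) ≤ Real.sqrt x - 1 := Real.log_le_sub_one_of_pos (Real.sqrt_pos.2 h0)
  have h3 : 0 ≤ Real.log x := Real.log_nonneg hx
  have h4 : Real.log x ≤ 2 * Real.sqrt x := by linarith
  calc Real.log x ^ 2 ≤ (2 * Real.sqrt x) ^ 2 := pow_le_pow_left₀ h3 h4 2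
    _ = 4 * x := by
        rw [mul_pow, Real.sq_sqrt h0.le]
        norm_num

/-- the limit of the main term -/
lemma lim (H : LR k A lc F a) {t s l V1 V2 : ℝ} (hs : 0 < s) (hl : 0 < l) (hV1 : 1 ≤ V1)
    (hV12 : V1 ≤ V2) :
    Tendsto (fun η : ℝ => ∫ v in V1..V2, (k * lc v + A) *
      ‖Dk l s ((-η : ℝ) + ((v - t : ℝ) : ℂ) * I)‖) (𝓝[>] 0)
      (𝓝 (∫ v in V1..V2, (k * lc v + A) * ‖Dk l s (((v - t : ℝ) : ℂ) * I)‖)) := by
  have hnn : ∀ v ∈ Set.Icc V1 V2, 0 ≤ k * lc v + A := fun v hv => by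
    have h1 : 0 ≤ lc v := (Real.log_nonneg (hV1.trans hv.1)).trans (H.hlc.low v (hV1.trans hv.1))
    have h2 := H.hA
    positivity
  have hsmall : ∀ᶠ η : ℝ in 𝓝[>] 0, 0 < η ∧ η ≤ s / 2 := by
    have h1 : ∀ᶠ η : ℝ in 𝓝[>] 0, η ∈ Set.Ioi (0:ℝ) := self_mem_nhdsWithin
    have h2 : ∀ᶠ η : ℝ in 𝓝[>] 0, η < s / 2 :=
      nhdsWithin_le_nhds (gt_mem_nhds (by positivity))
    filter_upwards [h1, h2] with η h1 h2
    exact ⟨h1, h2.le⟩
  have hm1 : IntervalIntegrable lc volume V1 V2 := by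
    apply MonotoneOn.intervalIntegrable
    rw [Set.uIcc_of_le hV12]
    intro x hx y hy hxy
    exact H.hlc.mono x y (hV1.trans hx.1) hxy
  refine intervalIntegral.tendsto_integral_filter_of_dominated_convergence
    (fun v => (k * lc v + A) * (2 * s / (3 / 4 * s ^ 2) *
      ((Real.cosh (l * (s / 2)) + 1) / (Real.cosh (l * s) - 1)))) ?_ ?_ ?_ ?_
  · filter_upwards [hsmall] with η hη
    have h1 := Dk_ii H hs hV1 hV12 (η := η) (t := t) (l := l) (by rw [abs_of_pos hη.1]; exact hη.2)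
    exact (intervalIntegrable_iff.1 h1).aestronglyMeasurable
  · filter_upwards [hsmall] with η hη
    refine Eventually.of_forall fun v hv => ?_
    rw [Set.uIoc_of_le hV12] at hv
    have h0 := hnn v ⟨hv.1.le, hv.2⟩
    rw [norm_mul, norm_norm, Real.norm_of_nonneg h0]
    refine mul_le_mul_of_nonneg_left ?_ h0
    have e1 : (((-η : ℝ) : ℂ) + ((v - t : ℝ) : ℂ) * I).re = -η := by simp
    apply Dk_le hl hs
    · rw [e1, abs_neg, abs_of_pos hη.1]
      exact hη.2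
    · positivity
    · rw [e1]
      have h4 := sq_nonneg ((((-η : ℝ) : ℂ) + ((v - t : ℝ) : ℂ) * I).im)
      have h5 := hη.1
      have h6 := hη.2
      nlinarith
  · exact ((hm1.const_mul _).add intervalIntegrable_const).mul_const _
  · refine Eventually.of_forall fun v _ => ?_
    refine Tendsto.const_mul _ ?_
    apply Tendsto.norm
    have h1 : Tendsto (fun η : ℝ => ((-η : ℝ) : ℂ) + ((v - t : ℝ) : ℂ) * I) (𝓝[>] 0)
        (𝓝 (((v - t : ℝ) : ℂ) * I)) := by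
      have h2 : Continuous fun η : ℝ => ((-η : ℝ) : ℂ) + ((v - t : ℝ) : ℂ) * I := by fun_prop
      have h3 := h2.tendsto 0
      have e1 : ((-(0:ℝ) : ℝ) : ℂ) + ((v - t : ℝ) : ℂ) * I = ((v - t : ℝ) : ℂ) * I := by simp
      rw [e1] at h3
      exact h3.mono_left nhdsWithin_le_nhds
    have h4 : ContinuousAt (Dk l s) (((v - t : ℝ) : ℂ) * I) := by
      apply Dk_cont
      have e1 : (((v - t : ℝ) : ℂ) * I).re = 0 := by simp
      rw [e1]
      have h5 := sq_nonneg ((((v - t : ℝ) : ℂ) * I).im)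
      have h6 : 0 < s ^ 2 := by positivity
      linarith
    exact h4.tendsto.comp h1

end

/-- **GX/A1** -/
theorem ct_of (hres : S_res) : S_ct := by
  intro k A lc F a H
  have hk1 : (1:ℝ) ≤ k := by exact_mod_cast H.hk
  obtain ⟨C1, hC1, hgh⟩ := Y767.WH.good_height_E (k:ℝ) A hk1 H.hA
  obtain ⟨P, hP⟩ : ∃ P : ℝ, P = 2 * lc 1 ^ 2 + 12 := ⟨_, rfl⟩
  have hP0 : 0 < P := by rw [hP]; positivity
  have hpi := Real.pi_gt_three
  refine ⟨112 * C1 * P + 8, by linarith [show 0 ≤ 112 * C1 * P by positivity], ?_⟩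
  intro t s l ht hs hs1 hl hexp
  have ht8 : 8 ≤ t := by linarith [show 0 ≤ 112 * C1 * P by positivity]
  have ht0 : 0 < t := by linarith
  have hl0 : 0 < l := by linarith
  have hc := cosh_pos' hl0 hs
  obtain ⟨V1, hV1, g1⟩ := hgh lc F a H.hlc H.good (t / 2 - 1) (by linarith)
  obtain ⟨V2, hV2, g2⟩ := hgh lc F a H.hlc H.good (3 * t / 2) (by linarith)
  have hV1' : V1 ≤ t / 2 := by linarith [hV1.2]
  have hV11 : 1 ≤ V1 := by linarith [hV1.1]
  have hV12 : V1 ≤ V2 := by linarith [hV2.1]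
  refine ⟨V1, V2, ⟨hV1.1, hV1'⟩, hV2, ?_⟩
  -- the size of `lc`
  have hlc : ∀ T : ℝ, 1 ≤ T → T ≤ 3 * t / 2 → lc T ^ 2 ≤ P * t := by
    intro T hT1 hT2
    have h1 : 0 ≤ lc T := (Real.log_nonneg hT1).trans (H.hlc.low T hT1)
    have h2 := H.hlc.slow 1 T le_rfl hT1
    rw [div_one] at h2
    have h3 := log_sq_le hT1
    have h4 : lc T ^ 2 ≤ (lc 1 + Real.log T) ^ 2 := pow_le_pow_left₀ h1 h2 2
    have h5 : (lc 1 + Real.log T) ^ 2 ≤ 2 * lc 1 ^ 2 + 2 * Real.log T ^ 2 := by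
      nlinarith [sq_nonneg (lc 1 - Real.log T)]
    rw [hP]
    have h6 : 2 * lc 1 ^ 2 ≤ 2 * lc 1 ^ 2 * t := by
      have : 0 ≤ 2 * lc 1 ^ 2 := by positivity
      nlinarith
    nlinarith
  -- the kernel on the horizontal edges
  have hker : ∀ x V : ℝ, |x - 1 / 2| ≤ 5 / 4 → t / 2 ≤ |V - t| →
      ‖Dk l s (⟨x, V⟩ - (1 / 2 + t * I))‖ ≤ 64 / (t * (l ^ 2 * s)) := by
    intro x V hx hV
    have e1 : ((⟨x, V⟩ : ℂ) - (1 / 2 + t * I)).re = x - 1 / 2 := by simp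
    have e2 : ((⟨x, V⟩ : ℂ) - (1 / 2 + t * I)).im = V - t := by simp
    have h1 := Dk_le (l := l) (s := s) (r := 5 / 4) (b := t ^ 2 / 8)
      (w := (⟨x, V⟩ : ℂ) - (1 / 2 + t * I)) hl0 hs (by rw [e1]; exact hx) (by positivity) (by
        rw [e1, e2]
        have h2 : (x - 1 / 2) ^ 2 ≤ (5 / 4) ^ 2 := by
          rw [← sq_abs (x - 1 / 2)]
          exact pow_le_pow_left₀ (abs_nonneg _) hx 2
        have h3 : (t / 2) ^ 2 ≤ (V - t) ^ 2 := by
          rw [← sq_abs (V - t)]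
          exact pow_le_pow_left₀ (by positivity) hV 2
        nlinarith)
    refine h1.trans ?_
    have h4 : Real.cosh (l * (5 / 4)) + 1 ≤ 2 * t := by
      have h5 : Real.cosh (l * (5 / 4)) ≤ Real.exp (l * (5 / 4)) := by
        rw [Real.cosh_eq]
        have : Real.exp (-(l * (5 / 4))) ≤ Real.exp (l * (5 / 4)) :=
          Real.exp_le_exp.2 (by nlinarith)
        linarith
      have h6 : Real.exp (l * (5 / 4)) ≤ Real.exp (8 * l) := Real.exp_le_exp.2 (by linarith)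
      linarith
    have h7 := cosh_sub_one_ge (l * s) (by positivity)
    calc 2 * s / (t ^ 2 / 8) * ((Real.cosh (l * (5 / 4)) + 1) / (Real.cosh (l * s) - 1))
        ≤ 2 * s / (t ^ 2 / 8) * (2 * t / ((l * s) ^ 2 / 2)) := by
          apply mul_le_mul_of_nonneg_left _ (by positivity)
          exact div_le_div₀ (by positivity) h4 (by positivity) h7
      _ = 64 / (t * (l ^ 2 * s)) := by
          field_simp
          norm_num
  have hhor : ∀ c0 : ℝ, 0 ≤ c0 → c0 ≤ 1 → ∀ V : ℝ, (V = V1 ∨ V = V2) →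
      ‖∫ x in c0..(7 / 4), deriv F ⟨x, V⟩ / F ⟨x, V⟩ * Dk l s (⟨x, V⟩ - (1 / 2 + t * I))‖ ≤
        112 * C1 * P / (l ^ 2 * s) := by
    intro c0 h0 h1 V hV
    have hb : ∀ x ∈ Set.uIoc c0 (7 / 4), ‖deriv F ⟨x, V⟩ / F ⟨x, V⟩ *
        Dk l s (⟨x, V⟩ - (1 / 2 + t * I))‖ ≤ 64 * C1 * P / (l ^ 2 * s) := by
      intro x hx
      rw [Set.uIoc_of_le (by linarith)] at hx
      have hx1 : x ∈ Set.Icc (-3 / 4 : ℝ) (7 / 4) := ⟨by linarith [hx.1], hx.2⟩
      have hx2 : |x - 1 / 2| ≤ 5 / 4 := by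
        rw [abs_le]
        constructor <;> linarith [hx.1, hx.2]
      have hF : ‖deriv F ⟨x, V⟩ / F ⟨x, V⟩‖ ≤ C1 * (P * t) := by
        rcases hV with rfl | rfl
        · refine ((g1 x hx1).2).trans (mul_le_mul_of_nonneg_left ?_ hC1.le)
          exact hlc _ (by linarith) (by linarith)
        · refine ((g2 x hx1).2).trans (mul_le_mul_of_nonneg_left ?_ hC1.le)
          exact hlc _ (by linarith) (by linarith)
      have hVt : t / 2 ≤ |V - t| := by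
        rcases hV with rfl | rfl
        · rw [abs_sub_comm]
          exact le_trans (by linarith) (le_abs_self _)
        · exact le_trans (by linarith [hV2.1]) (le_abs_self _)
      rw [norm_mul]
      calc ‖deriv F ⟨x, V⟩ / F ⟨x, V⟩‖ * ‖Dk l s (⟨x, V⟩ - (1 / 2 + t * I))‖
          ≤ C1 * (P * t) * (64 / (t * (l ^ 2 * s))) :=
            mul_le_mul hF (hker x V hx2 hVt) (norm_nonneg _) (by positivity)
        _ = 64 * C1 * P / (l ^ 2 * s) := by
            field_simp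
    refine (intervalIntegral.norm_integral_le_of_norm_le_const hb).trans ?_
    rw [abs_of_nonneg (by linarith)]
    have h2 : 0 ≤ 64 * C1 * P / (l ^ 2 * s) := by positivity
    calc 64 * C1 * P / (l ^ 2 * s) * (7 / 4 - c0) ≤ 64 * C1 * P / (l ^ 2 * s) * (7 / 4) :=
          mul_le_mul_of_nonneg_left (by linarith) h2
      _ = 112 * C1 * P / (l ^ 2 * s) := by ring
  -- all contours
  have hall : ∀ η : ℝ, 0 < η → η ≤ s / 2 → _ := fun η hη hη2 =>
    core hres H (t := t) hs hs1 hl0 hV11 (by linarith) (by linarith [hV2.1]) (fun x hx => (g1 x hx).1)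
      (fun x hx => (g2 x hx).1) hη hη2 hhor
  have hL := lim H (t := t) hs hl0 hV11 hV12
  have hL2 := ((hL.const_mul (1 / (2 * Real.pi))).sub_const (1 / Real.pi *
    (∫ v in V1..V2, deriv F (7 / 4 + v * I) / F (7 / 4 + v * I) *
        Dk l s (5 / 4 + ((v - t : ℝ) : ℂ) * I)).re)).add_const
    (1 / (2 * Real.pi) * (4 * (112 * C1 * P / (l ^ 2 * s))))
  have hev : ∀ᶠ η : ℝ in 𝓝[>] 0, 0 < η ∧ η ≤ s / 2 := by
    have h1 : ∀ᶠ η : ℝ in 𝓝[>] 0, η ∈ Set.Ioi (0:ℝ) := self_mem_nhdsWithin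
    have h2 : ∀ᶠ η : ℝ in 𝓝[>] 0, η < s / 2 :=
      nhdsWithin_le_nhds (gt_mem_nhds (by positivity))
    filter_upwards [h1, h2] with η h1 h2
    exact ⟨h1, h2.le⟩
  have hfin := ge_of_tendsto hL2 (hev.mono fun η hη => hall η hη.1 hη.2)
  refine hfin.trans ?_
  have h1 : 1 / (2 * Real.pi) * (4 * (112 * C1 * P / (l ^ 2 * s))) ≤
      (112 * C1 * P + 8) / (l ^ 2 * s) := by
    have h2 : 1 / (2 * Real.pi) * 4 ≤ 1 := by
      rw [one_div_mul_eq_div, div_le_one (by positivity)]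
      linarith
    have h3 : 0 ≤ 112 * C1 * P / (l ^ 2 * s) := by positivity
    have h4 : 112 * C1 * P / (l ^ 2 * s) ≤ (112 * C1 * P + 8) / (l ^ 2 * s) :=
      div_le_div_of_nonneg_right (by linarith) (by positivity)
    nlinarith
  linarith

end Pool.Agent.N40.GX
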