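import Pool.Agent.N964.GX.Stm
import Pool.Agent.N221.MXA

set_option autoImplicit false

/-!
# Project GX, part A2: the gamma factor (helper40)
-/

namespace Pool.Agent.N40.GX

open Complex MeasureTheory Filter Topology
open Pool.Agent.N964.GX
open Pool.Agent.Y23 (Lg)
open Pool.Agent.W354 (LogC)
open Pool.Agent.N221.MXA (KE KE_int KE_integral cosh_sub_one_ge)

/-! ### the kernel -/

lemma cosh_pos' {l s : ℝ} (hl : 0 < l) (hs : 0 < s) : 0 < Real.cosh (l * s) - 1 := by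
  have h := cosh_sub_one_ge (l * s) (by positivity)
  have : 0 < (l * s) ^ 2 / 2 := by positivity
  linarith

/-- the value of the kernel on the line `re w = 0` -/
lemma Dk_im (l s y : ℝ) : Dk l s ((y : ℂ) * I) =
    ((2 * s / (s ^ 2 + y ^ 2) * ((Real.cos (l * y) - 1) / (Real.cosh (l * s) - 1)) : ℝ) : ℂ) := by
  unfold Dk
  have h1 : ((l : ℂ) * ((y : ℂ) * I)) = ((l * y : ℝ) : ℂ) * I := by
    push_cast; ring
  have h2 : (s : ℂ) ^ 2 - ((y : ℂ) * I) ^ 2 = ((s ^ 2 + y ^ 2 : ℝ) : ℂ) := by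
    rw [mul_pow, I_sq]
    push_cast; ring
  rw [h1, h2, Complex.cosh_mul_I, ← Complex.ofReal_cos]
  push_cast
  ring

lemma Dk_im_norm {l s : ℝ} (hl : 0 < l) (hs : 0 < s) (y : ℝ) : ‖Dk l s ((y : ℂ) * I)‖ =
    2 * s / (s ^ 2 + y ^ 2) * ((1 - Real.cos (l * y)) / (Real.cosh (l * s) - 1)) := by
  have hc := cosh_pos' hl hs
  rw [Dk_im, Complex.norm_real, Real.norm_eq_abs, abs_mul, abs_div, abs_div,
    abs_of_pos (by positivity : (0:ℝ) < 2 * s), abs_of_pos (by positivity : 0 < s ^ 2 + y ^ 2),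
    abs_of_pos hc, abs_of_nonpos (by linarith [Real.cos_le_one (l * y)]), neg_sub]

lemma lor_int {s : ℝ} (hs : 0 < s) : Integrable (fun y : ℝ => 2 * s / (s ^ 2 + y ^ 2)) ∧
    ∫ y : ℝ, 2 * s / (s ^ 2 + y ^ 2) = 2 * Real.pi := by
  have e : (fun y : ℝ => 2 * s / (s ^ 2 + y ^ 2)) = fun y : ℝ => (2 / s) * (1 + (y / s) ^ 2)⁻¹ := by
    funext y
    have h1 : s ^ 2 + y ^ 2 ≠ 0 := by positivity
    have h2 : 1 + (y / s) ^ 2 ≠ 0 := by positivity
    rw [div_eq_iff h1]
    have h3 : (1 + (y / s) ^ 2)⁻¹ = s ^ 2 / (s ^ 2 + y ^ 2) := by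
      rw [inv_eq_iff_eq_inv, inv_div]
      field_simp
    rw [h3]
    field_simp
  rw [e]
  constructor
  · exact (integrable_inv_one_add_sq.comp_div hs.ne').const_mul _
  · rw [integral_const_mul, Measure.integral_comp_div (fun x : ℝ => (1 + x ^ 2)⁻¹) s,
      integral_univ_inv_one_add_sq, abs_of_pos hs, smul_eq_mul]
    field_simp

lemma Dk_int {l s : ℝ} (hl : 0 < l) (hs : 0 < s) (t : ℝ) :
    Integrable (fun v : ℝ => ‖Dk l s (((v - t : ℝ) : ℂ) * I)‖) ∧
    ∫ v : ℝ, ‖Dk l s (((v - t : ℝ) : ℂ) * I)‖ =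
      2 * Real.pi * (Real.sinh (l * s) / (Real.cosh (l * s) - 1) - 1) := by
  have hc := cosh_pos' hl hs
  obtain ⟨i1, e1⟩ := lor_int hs
  have hl2 : 0 < l / 2 := by positivity
  have i2 := KE_int hl2 hs t
  have e2 := KE_integral hl2 hs t
  have h2a : 2 * (l / 2) = l := by ring
  have key : (fun v : ℝ => ‖Dk l s (((v - t : ℝ) : ℂ) * I)‖) = fun v : ℝ =>
      (Real.cosh (l * s) - 1)⁻¹ * (s * KE (l / 2) s (v - t)) - 2 * s / (s ^ 2 + (v - t) ^ 2) := by
    funext v
    rw [Dk_im_norm hl hs]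
    unfold KE
    rw [h2a]
    have h1 : s ^ 2 + (v - t) ^ 2 ≠ 0 := by positivity
    have h3 : Real.cosh (l * s) - 1 ≠ 0 := hc.ne'
    generalize hC : Real.cosh (l * s) - 1 = c at h3 ⊢
    have h4 : Real.cosh (l * s) = c + 1 := by linarith
    rw [h4]
    field_simp
    ring
  rw [key]
  have i3 : Integrable (fun v : ℝ => 2 * s / (s ^ 2 + (v - t) ^ 2)) := i1.comp_sub_right t
  have e3 : ∫ v : ℝ, 2 * s / (s ^ 2 + (v - t) ^ 2) = 2 * Real.pi := by
    rw [← e1]
    exact integral_sub_right_eq_self (fun y : ℝ => 2 * s / (s ^ 2 + y ^ 2)) t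
  have i4 : Integrable (fun v : ℝ => (Real.cosh (l * s) - 1)⁻¹ * (s * KE (l / 2) s (v - t))) :=
    (i2.const_mul s).const_mul _
  refine ⟨i4.sub i3, ?_⟩
  rw [integral_sub i4 i3, integral_const_mul, integral_const_mul, e2, e3, h2a]
  field_simp

theorem arch : S_arch := by
  intro k A lc hlc hA
  have hk : (0:ℝ) ≤ k := Nat.cast_nonneg k
  refine ⟨k * (|lc 1| + Real.log 2) + A + 1, by positivity, ?_⟩
  intro t s l V1 V2 ht hs hs1 hl hV1 hV2
  have hl0 : 0 < l := by linarith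
  obtain ⟨hi, he⟩ := Dk_int hl0 hs t
  have hV12 : V1 ≤ V2 := by linarith [hV1.2, hV2.1]
  obtain ⟨M, hM⟩ : ∃ M : ℝ, M = k * Lg t + (k * (|lc 1| + Real.log 2) + A + 1) := ⟨_, rfl⟩
  have hLg : 0 ≤ Lg t := by
    unfold Pool.Agent.Y23.Lg
    apply Real.log_nonneg
    linarith [abs_nonneg t]
  have hM0 : 0 ≤ M := by rw [hM]; positivity
  have h1 : ∫ v in V1..V2, (k * lc v + A) * ‖Dk l s (((v - t : ℝ) : ℂ) * I)‖ ≤
      ∫ v : ℝ, M * ‖Dk l s (((v - t : ℝ) : ℂ) * I)‖ := by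
    rw [intervalIntegral.integral_of_le hV12]
    have h2 : ∀ v ∈ Set.Ioc V1 V2, 0 ≤ k * lc v + A ∧ k * lc v + A ≤ M := by
      intro v hv
      have hv1 : 1 ≤ v := by linarith [hV1.1, hv.1]
      have h3 : 0 ≤ lc v := (Real.log_nonneg hv1).trans (hlc.low v hv1)
      have h4 := hlc.slow 1 v le_rfl hv1
      rw [div_one] at h4
      have h5 : Real.log v ≤ Real.log 2 + Lg t := by
        unfold Pool.Agent.Y23.Lg
        rw [← Real.log_mul (by norm_num) (by positivity)]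
        apply Real.log_le_log (by linarith)
        have := le_abs_self t
        linarith [hv.2, hV2.2]
      have h6 := le_abs_self (lc 1)
      constructor
      · positivity
      · have h7 : k * lc v ≤ k * (|lc 1| + (Real.log 2 + Lg t)) :=
          mul_le_mul_of_nonneg_left (by linarith) hk
        rw [hM]
        linarith
    calc ∫ v in Set.Ioc V1 V2, (k * lc v + A) * ‖Dk l s (((v - t : ℝ) : ℂ) * I)‖
        ≤ ∫ v in Set.Ioc V1 V2, M * ‖Dk l s (((v - t : ℝ) : ℂ) * I)‖ := by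
          refine integral_mono_of_nonneg ?_ (hi.const_mul M).integrableOn ?_
          · refine (ae_restrict_iff' measurableSet_Ioc).2 (Eventually.of_forall fun v hv => ?_)
            exact mul_nonneg (h2 v hv).1 (norm_nonneg _)
          · refine (ae_restrict_iff' measurableSet_Ioc).2 (Eventually.of_forall fun v hv => ?_)
            exact mul_le_mul_of_nonneg_right (h2 v hv).2 (norm_nonneg _)
      _ ≤ _ := setIntegral_le_integral (hi.const_mul M)
          (Eventually.of_forall fun v => mul_nonneg hM0 (norm_nonneg _))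
  rw [integral_const_mul, he] at h1
  have hpi := Real.pi_pos
  calc 1 / (2 * Real.pi) * ∫ v in V1..V2, (k * lc v + A) * ‖Dk l s (((v - t : ℝ) : ℂ) * I)‖
      ≤ 1 / (2 * Real.pi) * (M * (2 * Real.pi *
        (Real.sinh (l * s) / (Real.cosh (l * s) - 1) - 1))) :=
        mul_le_mul_of_nonneg_left h1 (by positivity)
    _ = _ := by
        rw [hM]
        field_simp

end Pool.Agent.N40.GX
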