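import Pool.Agent.N964.GX.Stm5
import Pool.Agent.Y772.NV.Main
import Pool.Agent.Y772.DK.Main
import Pool.Agent.Y772.NZ.Zeta
import Pool.Agent.Y772.HG.Sgn

set_option autoImplicit false
set_option linter.unusedSectionVars false

/-!
# Project GX: Q4b (no zeros on the line Re s = 1 for unramified characters) and Q4c (signature), helper40
-/

namespace Pool.Agent.N40.GX

open NumberField Complex Filter Topology
open Pool.Agent.Y773 (LI TPos)
open Pool.Agent.Y773.G (ex)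
open Pool.Agent.R362.HL (IsRay IsUnr HXi signs signs_eq rayPole rayCond IsUnr.norm_eq_one IsRay.xi)
open Pool.Agent.Y772.NV (ab sq NVData nv ab_one)
open Pool.Agent.Y772.NZ (one one_ne near_one)
open Pool.Agent.N964.GX (IsLF S_nv1 S_sig1)

variable {K : Type} [Field K] [NumberField K]

lemma cop_top (𝔞 : Ideal (𝓞 K)) : IsCoprime 𝔞 (⊤ : Ideal (𝓞 K)) := by
  rw [Ideal.isCoprime_iff_sup_eq, sup_top_eq]

/-- GX/Q4c -/
theorem sig1 : S_sig1 := by
  intro K _ _ ψ h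
  obtain ⟨e, he, hc, hs⟩ := Pool.Agent.Y772.G.t_sig K ⊤ ψ h.ne_bot h.ray
  exact ⟨e, h.ne_bot, he, hc, h.supp, fun x h0 h1 => by rw [hs x h0 h1, signs_eq hc], h.prim⟩

lemma one_ray : IsRay ⊤ (fun _ => 0) (one K) where
  ne_bot := top_ne_bot
  sig_le _ := zero_le_one
  cpx _ _ := rfl
  supp 𝔞 h := by
    rw [one_ne K h]
    exact ⟨fun _ => cop_top 𝔞, fun _ => one_ne_zero⟩
  sig x hx _ := by
    rw [one_ne K (fun h => hx (Ideal.span_singleton_eq_bot.1 h))]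
    unfold signs
    simp
  prim 𝔤 h1 h2 := absurd (Ideal.isUnit_iff.1 (isUnit_of_dvd_one (by rwa [← Ideal.one_eq_top] at h1))) h2

lemma one_pole : rayPole (one K) = 1 := by
  unfold rayPole
  exact if_pos fun 𝔞 h => one_ne K h

lemma LI_congr {η ψ : Ideal (𝓞 K) →*₀ ℂ} (h : ∀ 𝔞 : Ideal (𝓞 K), 𝔞 ≠ ⊥ → η 𝔞 = ψ 𝔞) (s : ℂ) :
    LI η s = LI ψ s := by
  unfold LI
  refine tsum_congr fun 𝔞 => ?_
  by_cases h0 : 𝔞 = ⊥
  · rw [h0, ← Ideal.zero_eq_bot]
    simp only [map_zero]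
  · rw [h 𝔞 h0]

lemma gam_ne (e : InfinitePlace K → ℕ) (φ : K →+* ℂ) {s : ℂ} (hs : 0 < s.re) :
    Complex.Gammaℝ (s + ex e φ) ≠ 0 := by
  refine Complex.Gammaℝ_ne_zero_of_re_pos ?_
  simp only [add_re, natCast_re]
  positivity

lemma cpow_diff {R : ℝ} (hR : 1 ≤ R) : Differentiable ℂ fun s : ℂ => (R : ℂ) ^ (-s / 2) := by
  have hR' : (R : ℂ) ≠ 0 := by
    have : (0 : ℝ) < R := by linarith
    exact_mod_cast this.ne'
  intro s
  exact DifferentiableAt.const_cpow (by fun_prop) (Or.inl hR')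

lemma cpow_mul {R : ℝ} (hR : 1 ≤ R) (s : ℂ) : (R : ℂ) ^ (s / 2) * (R : ℂ) ^ (-s / 2) = 1 := by
  have hR' : (R : ℂ) ≠ 0 := by
    have : (0 : ℝ) < R := by linarith
    exact_mod_cast this.ne'
  rw [← Complex.cpow_add _ _ hR']
  have : s / 2 + -s / 2 = 0 := by ring
  rw [this, Complex.cpow_zero]

/-- the continuation without a pole -/
lemma cont0 {e : InfinitePlace K → ℕ} {ψ : Ideal (𝓞 K) →*₀ ℂ} (h : IsRay ⊤ e ψ) (hp : rayPole ψ = 0) :
    ∃ G : ℂ → ℂ, Differentiable ℂ G ∧ ∀ s : ℂ, 1 < s.re → G s = LI ψ s := by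
  obtain ⟨-, X, hX⟩ := h.xi
  rw [hp] at hX
  refine ⟨fun s => X s * ((rayCond (⊤ : Ideal (𝓞 K)) : ℂ) ^ (-s / 2) *
    ∏ φ : K →+* ℂ, (Complex.Gammaℝ (s + ex e φ))⁻¹), ?_, ?_⟩
  · refine hX.diff.mul ((cpow_diff hX.one_le).mul ?_)
    refine Differentiable.fun_finsetProd fun w _ => ?_
    exact Complex.differentiable_Gammaℝ_inv.comp (differentiable_id.add_const _)
  · intro s hs
    simp only
    rw [hX.eq s hs, pow_zero, one_mul]
    have h1 := cpow_mul hX.one_le s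
    have h2 : (∏ φ : K →+* ℂ, Complex.Gammaℝ (s + ex e φ)) *
        ∏ φ : K →+* ℂ, (Complex.Gammaℝ (s + ex e φ))⁻¹ = 1 := by
      rw [← Finset.prod_mul_distrib]
      exact Finset.prod_eq_one fun φ _ => mul_inv_cancel₀ (gam_ne e φ (by linarith))
    linear_combination (LI ψ s * (∏ φ : K →+* ℂ, Complex.Gammaℝ (s + ex e φ)) *
        ∏ φ : K →+* ℂ, (Complex.Gammaℝ (s + ex e φ))⁻¹) * h1 + LI ψ s * h2

/-- the continuation of the Dedekind zeta function -/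
lemma cont1 (K : Type) [Field K] [NumberField K] : ∃ G : ℂ → ℂ, Differentiable ℂ G ∧
    (∀ s : ℂ, 1 < s.re → G s = (s - 1) * LI (one K) s) ∧ G (-2) = 0 := by
  classical
  obtain ⟨-, X, hX⟩ := (one_ray (K := K)).xi
  rw [one_pole] at hX
  obtain ⟨w⟩ : Nonempty (InfinitePlace K) := inferInstance
  set φ₀ : K →+* ℂ := w.embedding with hφ₀
  have hex : ex (fun _ : InfinitePlace K => 0) φ₀ = 0 := by
    unfold ex
    rw [hφ₀, InfinitePlace.mk_embedding]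
    split_ifs with h3
    all_goals rfl
  set P : ℂ → ℂ := fun s => ∏ φ ∈ Finset.univ.erase φ₀,
    (Complex.Gammaℝ (s + ex (fun _ : InfinitePlace K => 0) φ))⁻¹ with hP
  refine ⟨fun s => X s * ((rayCond (⊤ : Ideal (𝓞 K)) : ℂ) ^ (-s / 2) *
    ((2 * Real.pi : ℂ)⁻¹ * (Complex.Gammaℝ (s + 2))⁻¹ * P s)), ?_, ?_, ?_⟩
  · refine hX.diff.mul ((cpow_diff hX.one_le).mul (Differentiable.mul ?_ ?_))
    · exact (Complex.differentiable_Gammaℝ_inv.comp (differentiable_id.add_const _)).const_mul _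
    · refine Differentiable.fun_finsetProd fun w _ => ?_
      exact Complex.differentiable_Gammaℝ_inv.comp (differentiable_id.add_const _)
  · intro s hs
    simp only
    rw [hX.eq s hs, pow_one]
    have hs0 : s ≠ 0 := by
      intro h0
      rw [h0] at hs
      simp at hs
      linarith
    have h1 := cpow_mul hX.one_le s
    have h2 : (∏ φ : K →+* ℂ, Complex.Gammaℝ (s + ex (fun _ : InfinitePlace K => 0) φ)) * P s =
        Complex.Gammaℝ s := by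
      rw [← Finset.mul_prod_erase _ _ (Finset.mem_univ φ₀), hex, Nat.cast_zero, add_zero, mul_assoc, hP]
      simp only
      rw [← Finset.prod_mul_distrib, Finset.prod_eq_one, mul_one]
      intro φ _
      exact mul_inv_cancel₀ (gam_ne _ φ (by linarith))
    have h3 : Complex.Gammaℝ s * s * (Complex.Gammaℝ (s + 2))⁻¹ = 2 * Real.pi := by
      rw [Complex.Gammaℝ_add_two hs0]
      have h4 : Complex.Gammaℝ s ≠ 0 := Complex.Gammaℝ_ne_zero_of_re_pos (by linarith)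
      have h5 : (Real.pi : ℂ) ≠ 0 := Complex.ofReal_ne_zero.2 Real.pi_ne_zero
      field_simp
    have h5 : (2 * Real.pi : ℂ) * (2 * Real.pi : ℂ)⁻¹ = 1 := by
      apply mul_inv_cancel₀
      exact mul_ne_zero two_ne_zero (Complex.ofReal_ne_zero.2 Real.pi_ne_zero)
    calc s * (s - 1) * ((rayCond (⊤ : Ideal (𝓞 K)) : ℂ) ^ (s / 2) *
          ∏ φ : K →+* ℂ, Complex.Gammaℝ (s + ex (fun _ : InfinitePlace K => 0) φ)) * LI (one K) s *
          ((rayCond (⊤ : Ideal (𝓞 K)) : ℂ) ^ (-s / 2) *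
            ((2 * Real.pi : ℂ)⁻¹ * (Complex.Gammaℝ (s + 2))⁻¹ * P s))
        = (s - 1) * LI (one K) s * ((rayCond (⊤ : Ideal (𝓞 K)) : ℂ) ^ (s / 2) *
            (rayCond (⊤ : Ideal (𝓞 K)) : ℂ) ^ (-s / 2)) *
          (((∏ φ : K →+* ℂ, Complex.Gammaℝ (s + ex (fun _ : InfinitePlace K => 0) φ)) * P s) * s *
            (Complex.Gammaℝ (s + 2))⁻¹) * (2 * Real.pi : ℂ)⁻¹ := by ring
      _ = (s - 1) * LI (one K) s := by
          rw [h1, h2, h3, mul_one, mul_assoc, h5, mul_one]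
  · have h0 : (Complex.Gammaℝ (-2 + 2))⁻¹ = 0 := by
      rw [inv_eq_zero, Complex.Gammaℝ_eq_zero_iff]
      exact ⟨0, by norm_num⟩
    simp only [h0, mul_zero, zero_mul]

lemma ray_unr {e : InfinitePlace K → ℕ} {ψ : Ideal (𝓞 K) →*₀ ℂ} (h : IsRay ⊤ e ψ) : IsUnr e ψ :=
  ⟨h.sig_le, h.cpx, fun x hx => by rw [h.sig x hx trivial, signs_eq h.cpx]⟩

lemma ray_norm {e : InfinitePlace K → ℕ} {ψ : Ideal (𝓞 K) →*₀ ℂ} (h : IsRay ⊤ e ψ) {𝔞 : Ideal (𝓞 K)}
    (h𝔞 : 𝔞 ≠ ⊥) : ‖ψ 𝔞‖ = 1 := (ray_unr h).norm_eq_one h𝔞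

lemma signs_sq {e : InfinitePlace K → ℕ} (he : ∀ w : InfinitePlace K, w.IsComplex → e w = 0) {x : K}
    (hx : x ≠ 0) : signs e x * signs e x = 1 := by
  unfold signs
  rw [← Finset.prod_mul_distrib]
  refine Finset.prod_eq_one fun w _ => ?_
  by_cases hw : w.IsReal
  · have h1 : (w.embedding x).re ≠ 0 := by
      intro h0
      apply hx
      have h2 := InfinitePlace.embedding_of_isReal_apply hw x
      have h3 : ((InfinitePlace.embedding_of_isReal hw x : ℝ) : ℂ).re = (w.embedding x).re := by rw [h2]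
      rw [Complex.ofReal_re, h0] at h3
      exact (map_eq_zero _).1 h3
    rw [← mul_pow]
    rcases lt_or_gt_of_ne h1 with h | h
    · rw [sign_neg h]
      simp
    · rw [sign_pos h]
      simp
  · rw [he w (InfinitePlace.not_isReal_iff_isComplex.mp hw), pow_zero, one_mul]

lemma sq_ray {e : InfinitePlace K → ℕ} {ψ : Ideal (𝓞 K) →*₀ ℂ} (h : IsRay ⊤ e ψ) :
    IsRay ⊤ (fun _ => 0) (sq ψ) where
  ne_bot := top_ne_bot
  sig_le _ := zero_le_one
  cpx _ _ := rfl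
  supp 𝔞 h0 := by
    have h1 : sq ψ 𝔞 = ψ 𝔞 * ψ 𝔞 := rfl
    have h2 := (h.supp 𝔞 h0).2 (cop_top 𝔞)
    rw [h1]
    exact ⟨fun _ => cop_top 𝔞, fun _ => mul_ne_zero h2 h2⟩
  sig x hx _ := by
    have h1 : sq ψ (Ideal.span {x}) = ψ (Ideal.span {x}) * ψ (Ideal.span {x}) := rfl
    rw [h1, h.sig x hx trivial, signs_sq h.cpx (by exact_mod_cast hx)]
    unfold signs
    simp
  prim 𝔤 h1 h2 := absurd (Ideal.isUnit_iff.1 (isUnit_of_dvd_one (by rwa [← Ideal.one_eq_top] at h1))) h2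

lemma pole_cases (ψ : Ideal (𝓞 K) →*₀ ℂ) : (rayPole ψ = 1 ∧ ∀ 𝔞 : Ideal (𝓞 K), 𝔞 ≠ ⊥ → ψ 𝔞 = 1) ∨
    rayPole ψ = 0 := by
  unfold rayPole
  by_cases h : ∀ 𝔞 : Ideal (𝓞 K), 𝔞 ≠ ⊥ → ψ 𝔞 = 1
  · exact Or.inl ⟨if_pos h, h⟩
  · exact Or.inr (if_neg h)

/-- the continuation -/
lemma cont {e : InfinitePlace K → ℕ} {ψ : Ideal (𝓞 K) →*₀ ℂ} (h : IsRay ⊤ e ψ) :
    ∃ G : ℂ → ℂ, Differentiable ℂ G ∧ ∀ s : ℂ, 1 < s.re → G s = (s - 1) * LI ψ s := by
  rcases pole_cases ψ with ⟨-, h1⟩ | h1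
  · obtain ⟨G, hG, hG2, -⟩ := cont1 K
    refine ⟨G, hG, fun s hs => ?_⟩
    rw [hG2 s hs, LI_congr (η := one K) (ψ := ψ) (fun 𝔞 h𝔞 => by rw [one_ne K h𝔞, h1 𝔞 h𝔞])]
  · obtain ⟨G, hG, hG2⟩ := cont0 h h1
    refine ⟨fun s => (s - 1) * G s, (differentiable_id.sub_const 1).mul hG, fun s hs => ?_⟩
    simp only
    rw [hG2 s hs]

lemma nvd {e : InfinitePlace K → ℕ} {ψ : Ideal (𝓞 K) →*₀ ℂ} (h : IsRay ⊤ e ψ) : NVData ψ where
  unit 𝔞 := by
    by_cases h0 : 𝔞 = ⊥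
    · left
      rw [h0, ← Ideal.zero_eq_bot, map_zero]
    · exact Or.inr (ray_norm h h0)
  pab := by
    obtain ⟨G, hG, hG2, hG3⟩ := cont1 K
    refine ⟨G, hG, fun s hs => ?_, hG3⟩
    rw [hG2 s hs, LI_congr (η := one K) (ψ := ab ψ) (fun 𝔞 h𝔞 => by rw [one_ne K h𝔞, ab_one (ray_norm h h𝔞)])]
  peta := cont h
  psq := cont (sq_ray h)
  psq' := by
    rcases pole_cases (sq ψ) with ⟨-, h1⟩ | h1
    · left
      intro 𝔞
      by_cases h0 : 𝔞 = ⊥
      · rw [h0, ← Ideal.zero_eq_bot, map_zero, map_zero]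
      · rw [h1 𝔞 h0, ab_one (ray_norm h h0)]
    · exact Or.inr (cont0 (sq_ray h) h1)

/-- GX/Q4b -/
theorem nv1 : S_nv1 := by
  intro K _ _ e ψ h E F hEF s hs
  have hE1 : ∀ z : ℂ, 1 < z.re → E z = (z - 1) ^ rayPole ψ * LI ψ z := by
    intro z hz
    rw [hEF.hE z (by rintro rfl; simp at hz), hEF.eq z hz]
  rcases pole_cases ψ with ⟨hr, h1⟩ | hr
  · by_cases hs1 : s = 1
    · rw [hs1]
      obtain ⟨g, hg, hg1, hgz⟩ := near_one K
      have ht : Tendsto (fun σ : ℝ => ((1 + σ : ℝ) : ℂ)) (𝓝[>] 0) (𝓝 (1 : ℂ)) := by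
        have : Continuous (fun σ : ℝ => ((1 + σ : ℝ) : ℂ)) := by fun_prop
        have h0 := this.tendsto 0
        simp only [add_zero, Complex.ofReal_one] at h0
        exact h0.mono_left nhdsWithin_le_nhds
      have h2 : Tendsto (fun σ : ℝ => E ((1 + σ : ℝ) : ℂ)) (𝓝[>] 0) (𝓝 (E 1)) :=
        (hEF.ent.continuous.tendsto 1).comp ht
      have h3 : Tendsto (fun σ : ℝ => g ((1 + σ : ℝ) : ℂ)) (𝓝[>] 0) (𝓝 (g 1)) :=
        hg.continuousAt.tendsto.comp ht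
      have h4 : E 1 = g 1 := by
        refine tendsto_nhds_unique h2 (h3.congr' ?_)
        filter_upwards [ht.eventually hgz, self_mem_nhdsWithin] with σ h5 h6
        have h6' : (0 : ℝ) < σ := h6
        have h7 : 1 < (((1 + σ : ℝ) : ℂ)).re := by
          rw [Complex.ofReal_re]
          linarith
        have h8 : (((1 + σ : ℝ) : ℂ)) - 1 ≠ 0 := by
          intro h9
          have := congrArg Complex.re h9
          simp at this
          linarith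
        have h9 := h5 h7
        rw [LI_congr (η := one K) (ψ := ψ) (fun 𝔞 h𝔞 => by rw [one_ne K h𝔞, h1 𝔞 h𝔞])] at h9
        rw [hE1 _ h7, hr, pow_one, h9, mul_div_cancel₀ _ h8]
      rw [h4]
      exact hg1
    · have hs1' : s - 1 ≠ 0 := sub_ne_zero.2 hs1
      have h2 : AnalyticAt ℂ (fun z => E z / (z - 1)) s :=
        (hEF.ent.analyticAt s).div (by fun_prop) hs1'
      have h3 := nv Pool.Agent.Y772.DK.t_dirK (nvd h) hs h2 (Eventually.of_forall fun z hz => by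
        have hz1 : z - 1 ≠ 0 := by
          intro h9
          have := congrArg Complex.re h9
          simp at this
          linarith
        rw [hE1 z hz, hr, pow_one, mul_div_cancel_left₀ _ hz1])
      intro h4
      apply h3
      change E s / (s - 1) = 0
      rw [h4, zero_div]
  · exact nv Pool.Agent.Y772.DK.t_dirK (nvd h) hs (hEF.ent.analyticAt s)
      (Eventually.of_forall fun z hz => by rw [hE1 z hz, hr, pow_zero, one_mul])

end Pool.Agent.N40.GX
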