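import Pool.Agent.N657.QR.Stm

/-!
# QR/DIA: the neutral sector has the lowest energy
-/

set_option autoImplicit false

namespace Pool.Agent.N40.QR.DIA

open Pool.Agent.N657.QR

theorem tot_hp {V : Type} [Fintype V] [DecidableEq V] (x y : V) (n : V → ℤ) :
    tot (hp x y n) = tot n := by
  unfold tot hp dl
  simp [Finset.sum_add_distrib, Finset.sum_sub_distrib]

/-- the part of `ψ` with `N` particles -/
def pt {V : Type} [Fintype V] (N : ℤ) (ψ : (V → ℤ) → ℝ) : (V → ℤ) → ℝ :=
  fun n => if tot n = N then ψ n else 0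

theorem dec {V : Type} [Fintype V] [DecidableEq V] (S : Finset (V → ℤ)) (F : (V → ℤ) → ℝ)
    (hF : ∀ n, n ∉ S → F n = 0) :
    ∑' n, F n = ∑ N ∈ S.image tot, ∑' n, (if tot n = N then F n else 0) := by
  rw [tsum_eq_sum (s := S) (fun n hn => hF n hn)]
  have h1 : ∀ N ∈ S.image tot, ∑' n, (if tot n = N then F n else 0) =
      ∑ n ∈ S, (if tot n = N then F n else 0) := by
    intro N _
    apply tsum_eq_sum
    intro n hn
    rw [hF n hn, ite_self]
  rw [Finset.sum_congr rfl h1, Finset.sum_comm]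
  refine Finset.sum_congr rfl fun n hn => ?_
  rw [Finset.sum_ite_eq, if_pos (Finset.mem_image_of_mem _ hn)]

theorem part1 (hB : S_BAS) (hR : S_RSD) {V : Type} [Fintype V] [DecidableEq V] [Nonempty V]
    (K : Matrix V V ℝ) (w : V → V → ℝ) (hK : K.PosSemidef) (hw : ∀ x y, 0 ≤ w x y) (N : ℤ) :
    en K w 0 0 ≤ en K w 0 N := by
  have hd : ∀ N : ℤ, en K w 0 (2 * N) - en K w 0 0 ≤ 4 * (en K w 0 N - en K w 0 0) := by
    intro N
    have h := hR K K w w 0 0 N N hK hK (by rw [sub_self]; exact Matrix.PosSemidef.zero) hw hw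
    rw [sup_idem, inf_idem, add_zero, sub_zero, sub_self, ← two_mul] at h
    linarith
  have hk : ∀ k : ℕ, en K w 0 (2 ^ k * N) - en K w 0 0 ≤ 4 ^ k * (en K w 0 N - en K w 0 0) := by
    intro k
    induction k with
    | zero => simp
    | succ k ih =>
      have h1 := hd (2 ^ k * N)
      rw [← mul_assoc, ← pow_succ'] at h1
      rw [pow_succ' (4 : ℝ), mul_assoc]
      linarith
  by_contra hcon
  push Not at hcon
  have hpos : 0 < en K w 0 0 - en K w 0 N := by linarith
  obtain ⟨k, hk2⟩ := pow_unbounded_of_one_lt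
    (((∑ x, ∑ y, w x y) + en K w 0 0) / (en K w 0 0 - en K w 0 N)) (show (1 : ℝ) < 4 by norm_num)
  rw [div_lt_iff₀ hpos] at hk2
  have h1 := hB.enlow K w 0 (2 ^ k * N) hK hw
  have h2 := hk k
  nlinarith

theorem main (hB : S_BAS) (hR : S_RSD) : S_DIA := by
  intro V _ _ _ K w hK hw
  have h1 := part1 hB hR K w hK hw
  refine ⟨h1, ?_⟩
  intro ψ hψ
  classical
  have hψ' : (Function.support ψ).Finite := hψ
  set S : Finset (V → ℤ) := hψ'.toFinset with hS
  have hz : ∀ n, n ∉ S → ψ n = 0 := by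
    intro n hn
    rw [hS, Set.Finite.mem_toFinset, Function.mem_support, not_not] at hn
    exact hn
  have hnr : nr ψ = ∑ N ∈ S.image tot, nr (pt N ψ) := by
    unfold nr
    rw [dec S _ (fun n hn => by rw [hz n hn]; ring)]
    refine Finset.sum_congr rfl fun N _ => tsum_congr fun n => ?_
    unfold pt
    split_ifs
    · rfl
    · ring
  have hpo : po K 0 ψ = ∑ N ∈ S.image tot, po K 0 (pt N ψ) := by
    unfold po
    rw [dec S _ (fun n hn => by rw [hz n hn]; ring)]
    refine Finset.sum_congr rfl fun N _ => tsum_congr fun n => ?_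
    unfold pt
    split_ifs
    · rfl
    · ring
  have hcr : ∀ x y, cr x y ψ = ∑ N ∈ S.image tot, cr x y (pt N ψ) := by
    intro x y
    unfold cr
    rw [dec S _ (fun n hn => by rw [hz n hn]; ring)]
    refine Finset.sum_congr rfl fun N _ => tsum_congr fun n => ?_
    unfold pt
    rw [tot_hp]
    split_ifs
    · rfl
    · ring
  have hFF : FF K w 0 ψ = ∑ N ∈ S.image tot, FF K w 0 (pt N ψ) := by
    unfold FF
    rw [Finset.sum_sub_distrib, ← hpo]
    have h2 : ∑ N ∈ S.image tot, ∑ x, ∑ y, w x y * cr x y (pt N ψ) =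
        ∑ x, ∑ y, w x y * cr x y ψ := by
      rw [Finset.sum_comm]
      refine Finset.sum_congr rfl fun x _ => ?_
      rw [Finset.sum_comm]
      refine Finset.sum_congr rfl fun y _ => ?_
      rw [hcr x y, Finset.mul_sum]
    rw [h2]
  rw [hFF, hnr, Finset.mul_sum]
  refine Finset.sum_le_sum fun N _ => ?_
  have hf : fs (pt N ψ) := by
    refine hψ'.subset ?_
    intro n hn
    rw [Function.mem_support] at hn ⊢
    intro h0
    apply hn
    unfold pt
    rw [h0, ite_self]
  have hs : Sec N (pt N ψ) := by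
    intro n hn
    by_contra hne
    apply hn
    unfold pt
    rw [if_neg hne]
  have hn0 : 0 ≤ nr (pt N ψ) := tsum_nonneg fun n => sq_nonneg _
  calc en K w 0 0 * nr (pt N ψ) ≤ en K w 0 N * nr (pt N ψ) :=
        mul_le_mul_of_nonneg_right (h1 N) hn0
    _ ≤ _ := hB.enle K w 0 N (pt N ψ) hK hw hf hs

end Pool.Agent.N40.QR.DIA
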