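import Pool.Agent.N657.QR.Stm

/-!
# QR/RSD: the replica inequality
-/

set_option autoImplicit false

namespace Pool.Agent.N40.QR.RSD

open Pool.Agent.N657.QR

theorem main (hB : S_BAS) (hP : S_E2P) (hR : S_E2R) (hL : S_E2L) : S_RSD := by
  intro V _ _ _ K₁ K₂ w₁ w₂ ν₁ ν₂ N₁ N₂ hK₁ hK₂ hK hw₁ hw₂
  refine le_of_forall_pos_le_add fun ε hε => ?_
  obtain ⟨φ, hφf, hφs, hφn, hφ⟩ := hB.enex K₁ w₁ ν₁ N₁ (ε / 2) hK₁ hw₁ (half_pos hε)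
  obtain ⟨χ, hχf, hχs, hχn, hχ⟩ := hB.enex K₂ w₂ ν₂ N₂ (ε / 2) hK₂ hw₂ (half_pos hε)
  obtain ⟨M, hMf, hMp, hMn, hME⟩ :=
    hP K₁ K₂ w₁ w₂ ν₁ ν₂ N₁ N₂ φ χ hK₁ hK₂ hφf hχf hφs hχs
  obtain ⟨P, Q, hPf, hQf, hPp, hQp, hPn, hQn, hE⟩ :=
    hR K₁ K₂ w₁ w₂ (ν₁ + ν₂) (ν₁ - ν₂) _ _ M hK₁ hK₂ hK hw₁ hw₂ hMf hMp
  have hwp : ∀ x y, 0 ≤ (w₁ ⊔ w₂) x y := fun x y => le_sup_of_le_left (hw₁ x y)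
  have hwi : ∀ x y, 0 ≤ (w₁ ⊓ w₂) x y := fun x y => le_inf (hw₁ x y) (hw₂ x y)
  have e1 : ∀ a : V → ℝ, (fun x => (a x + a x) / 2) = a := by
    intro a; funext x; ring
  have e2 : ∀ a : V → ℝ, (fun x => (a x - a x) / 2) = 0 := by
    intro a; funext x; simp
  have h1 := hL K₁ K₂ (w₁ ⊔ w₂) (w₁ ⊓ w₂) (ν₁ + ν₂) (ν₁ + ν₂) (N₁ + N₂) 0 P hK₁ hK₂ hwp hwi hPf
    (by rw [add_zero, sub_zero]; exact hPp)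
  have h2 := hL K₁ K₂ (w₁ ⊔ w₂) (w₁ ⊓ w₂) (ν₁ - ν₂) (ν₁ - ν₂) (N₁ - N₂) 0 Q hK₁ hK₂ hwp hwi hQf
    (by rw [add_zero, sub_zero]; exact hQp)
  rw [e1, e2] at h1 h2
  rw [hφn, hχn, mul_one] at hMn
  rw [hPn, hMn, mul_one] at h1
  rw [hQn, hMn, mul_one] at h2
  rw [hME, hφn, hχn] at hE
  linarith

end Pool.Agent.N40.QR.RSD
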